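import Pool.Agent.Work.MP_3035da_co.K.Chn
import Pool.Agent.Work.MP_3035da_co.K.Circuits

/-!
Part T: triangulation of a 2-connected plane graph with degrees at most `3 d`.
-/

set_option autoImplicit false

namespace Pool.Agent.Work.MP_3035da_co.K

open Finset

/-- the chain of a triangle -/
noncomputable def tri {V : Type} (a b c : V) : Chain V := sing s(a, b) + sing s(b, c) + sing s(a, c)

/-- the chain is a triangle -/
def IsTri {V : Type} (z : Chain V) : Prop := ∃ a b c : V, a ≠ b ∧ b ≠ c ∧ a ≠ c ∧ z = tri a b c

/-- `G` with the further edges `s(a, w)`, `s(b, w)` -/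
def addV {V : Type} (G : SimpleGraph V) (a b w : V) : SimpleGraph V :=
  G ⊔ SimpleGraph.fromEdgeSet {s(a, w), s(b, w)}

/-- `G` with the further edge `s(a, c)` -/
def addE {V : Type} (G : SimpleGraph V) (a c : V) : SimpleGraph V :=
  G ⊔ SimpleGraph.fromEdgeSet {s(a, c)}

/-- replace the face `i` by `f i + t` and add the face `t` -/
noncomputable def cutFace {V ι : Type} (f : ι → Chain V) (i : ι) (t : Chain V) :
    Option ι → Chain V :=
  open Classical in fun o => o.elim t (fun j => if j = i then f i + t else f j)

/-- a closed enumeration of a circuit, periodically continued -/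
structure Enum {V : Type} (z : Chain V) (n : ℕ) (c : ℕ → V) : Prop where
  hn : 3 ≤ n
  per : ∀ i, c (i + n) = c i
  inj : ∀ i j, i < n → j < n → c i = c j → i = j
  iff : ∀ e, z e ≠ 0 ↔ ∃ i < n, e = s(c i, c (i + 1))

/-- push a chain forward along an embedding -/
noncomputable def push {V W : Type} (φ : V ↪ W) (z : Chain V) : Chain W :=
  open Classical in fun e => if h : ∃ e', Sym2.map φ e' = e then z h.choose else 0

end Pool.Agent.Work.MP_3035da_co.K
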