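import Pool.Agent.Work.MP_3035da_co.T.Defs
import Pool.Agent.Work.MP_3035da_co.K.FaceCirc

/-!
Module T.COUNT: the number of faces at a vertex is at most its degree.

Count the pairs `(i, u)` with `f i s(v,u) = 1`.  For each of the neighbours `u` of `v` there are at most two
`i` (`FaceSys.two`), for other `u` none (`FaceSys.edge`).  For each `i` with `v ∈ VC (f i)` the face `f i` is a
circuit (`face_circ`) and there are exactly two `u` (`circ_deg`).  So twice the number of faces at `v` is at
most twice the degree.
-/

set_option autoImplicit false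

namespace Pool.Agent.Work.MP_3035da_co.K

open Finset

theorem face_count {V ι : Type} [Fintype V] [Fintype ι] {G : SimpleGraph V} {f : ι → Chain V}
    (hG : TwoConn G) (hf : FaceSys G f) (v : V) :
    {i : ι | v ∈ VC (f i)}.ncard ≤ (G.neighborSet v).ncard := by
  classical
  have hone : (1 : ZMod 2) ≠ 0 := by decide
  have e1 : {i : ι | v ∈ VC (f i)} = ↑(univ.filter (fun i : ι => v ∈ VC (f i))) := by
    ext i; simp
  have e2 : G.neighborSet v = ↑(univ.filter (fun u : V => G.Adj v u)) := by
    ext u; simp
  rw [e1, e2, Set.ncard_coe_finset, Set.ncard_coe_finset]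
  have key := Finset.card_mul_le_card_mul (s := univ.filter (fun i : ι => v ∈ VC (f i)))
    (t := univ.filter (fun u : V => G.Adj v u)) (fun i u => f i s(v, u) = 1) (m := 2) (n := 2)
    (by
      intro i hi
      have hv : v ∈ VC (f i) := by simpa using hi
      have hne : f i ≠ 0 := by
        obtain ⟨u, hu⟩ := hv
        intro h
        exact hu (by rw [h]; rfl)
      obtain ⟨d₁, d₂, h12, hd⟩ := circ_deg (face_circ hG hf hne) hv
      have h1 : f i s(v, d₁) ≠ 0 := (hd d₁).mpr (Or.inl rfl)
      have h2 : f i s(v, d₂) ≠ 0 := (hd d₂).mpr (Or.inr rfl)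
      have hsub : ({d₁, d₂} : Finset V) ⊆
          bipartiteAbove (fun i u => f i s(v, u) = 1) (univ.filter (fun u : V => G.Adj v u)) i := by
        intro u hu
        rw [mem_bipartiteAbove, mem_filter]
        simp only [mem_insert, mem_singleton] at hu
        rcases hu with rfl | rfl
        · exact ⟨⟨mem_univ _, hf.edge h1⟩, (ne_zero_iff _).mp h1⟩
        · exact ⟨⟨mem_univ _, hf.edge h2⟩, (ne_zero_iff _).mp h2⟩
      calc 2 = ({d₁, d₂} : Finset V).card := (card_pair h12).symm
        _ ≤ _ := card_le_card hsub)
    (by
      intro u _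
      have hsub : bipartiteBelow (fun i u => f i s(v, u) = 1)
          (univ.filter (fun i : ι => v ∈ VC (f i))) u ⊆
          univ.filter (fun i => f i s(v, u) = 1) := by
        intro i hi
        rw [mem_bipartiteBelow] at hi
        exact mem_filter.mpr ⟨mem_univ _, hi.2⟩
      refine (card_le_card hsub).trans ?_
      rcases hf.two s(v, u) with h | h
      · have : univ.filter (fun i => f i s(v, u) = 1) = ∅ := by
          ext i
          simp [h i]
        rw [this]
        simp
      · exact h.le)
  omega

end Pool.Agent.Work.MP_3035da_co.K
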