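import Pool.Agent.Work.MP_3035da_co.T.Defs
import Pool.Agent.Work.MP_3035da_co.K.SeqCirc

/-!
Module T.ENUM: every circuit has a closed enumeration.

Let `z` be a circuit.  Every vertex of `VC z` has exactly two neighbours in `z` (`circ_deg`).  Take an edge
`s(a,b)` of `z` and define `c 0 = a`, `c 1 = b`, `c (i+2)` = the neighbour of `c (i+1)` in `z` different from
`c i`.  All pairs `s(c i, c (i+1))` are edges of `z`, and `c i` and `c (i+2)` are exactly the neighbours of
`c (i+1)`.  By finiteness there are `i < j` with `c i = c j`; take `j` minimal such that `c j` is in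
`{c 0, …, c (j-1)}`, `c i = c j`.  Then `i = 0`: if `i ≥ 1`, the neighbours of `c i` are `c (i-1)` and `c (i+1)`,
and `c (j-1)` is one of them; `j - 1 = i + 1` is impossible as `c (i+2) ≠ c i`, and otherwise minimality of `j`
is contradicted.  So `c n = c 0` with `n = j ≥ 3` and `c 0, …, c (n-1)` are different.  `c (n-1)` and `c 1` are the
two neighbours of `c 0` (`c (n-1) ≠ c 1` as `n ≥ 3`), so `c (n+1) = c 1`, and by induction the sequence is
periodic.  The chain of the closed sequence (`seq_circ` with `k = n - 1`) is in the cycle space with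
support inside that of `z`, nonzero, so it is `z` (`Circ.eq_of_sub`); this gives `iff` (the edge
`s(c (n-1), c 0)` is `s(c (n-1), c n)`).
-/

set_option autoImplicit false

namespace Pool.Agent.Work.MP_3035da_co.K

open Finset

/-- no reflection -/
private theorem no_refl {V : Type} {z : Chain V} {c : ℕ → V} (hloop : ∀ v, z s(v, v) = 0)
    (h1 : ∀ i, z s(c i, c (i + 1)) ≠ 0) (h2 : ∀ i, c (i + 2) ≠ c i)
    (h3 : ∀ i y, z s(c (i + 1), y) ≠ 0 → y = c i ∨ y = c (i + 2)) (m : ℕ) :
    ∀ i, c i = c (i + m + 1) → c (i + 1) = c (i + m) → False := by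
  induction m using Nat.strong_induction_on with
  | _ m ih =>
    intro i e1 e2
    match m, ih, e1, e2 with
    | 0, _, e1, e2 =>
      apply h1 i
      rw [e2]
      exact hloop _
    | 1, _, e1, e2 => exact h2 i e1.symm
    | m + 2, ih, e1, e2 =>
      -- `c (i + 2)` is a neighbour of `c (i + m + 2)`
      have e3 : z s(c (i + m + 1 + 1), c (i + 2)) ≠ 0 := by
        have h4 := h1 (i + 1)
        rw [e2] at h4
        exact h4
      rcases h3 _ _ e3 with e4 | e4
      · refine ih m (by omega) (i + 1) ?_ ?_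
        · have : i + 1 + m + 1 = i + (m + 2) := by ring
          rw [this]
          exact e2
        · have : i + 1 + m = i + m + 1 := by ring
          rw [this]
          exact e4
      · have e5 : i + m + 1 + 2 = i + (m + 2) + 1 := by ring
        rw [e5, ← e1] at e4
        exact h2 i e4

theorem circ_enum {V : Type} [Fintype V] {z : Chain V} (hz : Circ z) :
    ∃ (n : ℕ) (c : ℕ → V), Enum z n c := by
  classical
  obtain ⟨G, hG⟩ := hz.1
  have hloop : ∀ v, z s(v, v) = 0 := by
    intro v
    by_contra h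
    exact G.loopless.irrefl v (hG.1 _ h)
  -- the next vertex
  have hnx : ∀ u w : V, ∃ x : V, z s(u, w) ≠ 0 →
      x ≠ u ∧ z s(w, x) ≠ 0 ∧ ∀ y, z s(w, y) ≠ 0 → y = u ∨ y = x := by
    intro u w
    by_cases huw : z s(u, w) = 0
    · exact ⟨u, fun h => absurd huw h⟩
    · have hwu : z s(w, u) ≠ 0 := by rwa [Sym2.eq_swap]
      obtain ⟨d₁, d₂, hd, hd'⟩ := circ_deg hz (w := w) ⟨u, hwu⟩
      rcases (hd' u).1 hwu with rfl | rfl
      · exact ⟨d₂, fun _ => ⟨hd.symm, (hd' _).2 (Or.inr rfl), fun y hy => (hd' y).1 hy⟩⟩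
      · exact ⟨d₁, fun _ => ⟨hd, (hd' _).2 (Or.inl rfl), fun y hy => ((hd' y).1 hy).symm⟩⟩
  choose nx hnx using hnx
  obtain ⟨e, he⟩ : ∃ e, z e ≠ 0 := by
    by_contra h
    push Not at h
    exact hz.2.1 (funext h)
  induction e using Sym2.ind with
  | _ a b =>
  obtain ⟨g, hg0, hgs⟩ : ∃ g : ℕ → V × V, g 0 = (a, b) ∧
      ∀ i, g (i + 1) = ((g i).2, nx (g i).1 (g i).2) :=
    ⟨fun i => Nat.rec (a, b) (fun _ p => (p.2, nx p.1 p.2)) i, rfl, fun i => rfl⟩
  obtain ⟨c, hc⟩ : ∃ c : ℕ → V, ∀ i, c i = (g i).1 := ⟨fun i => (g i).1, fun i => rfl⟩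
  have hc1 : ∀ i, c (i + 1) = (g i).2 := by
    intro i
    rw [hc, hgs]
  have hgc : ∀ i, g i = (c i, c (i + 1)) := fun i => Prod.ext (hc i).symm (hc1 i).symm
  have hcs : ∀ i, c (i + 2) = nx (c i) (c (i + 1)) := by
    intro i
    rw [hc1 (i + 1), hgs, hc i, hc1 i]
  have h1 : ∀ i, z s(c i, c (i + 1)) ≠ 0 := by
    intro i
    induction i with
    | zero =>
      rw [hc1 0, hc 0, hg0]
      exact he
    | succ i ih =>
      rw [hcs i]
      exact (hnx _ _ ih).2.1
  have h2 : ∀ i, c (i + 2) ≠ c i := by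
    intro i
    rw [hcs i]
    exact (hnx _ _ (h1 i)).1
  have h3 : ∀ i y, z s(c (i + 1), y) ≠ 0 → y = c i ∨ y = c (i + 2) := by
    intro i y hy
    rw [hcs i]
    exact (hnx _ _ (h1 i)).2.2 y hy
  -- going back
  have hback : ∀ i j, g (i + 1) = g (j + 1) → g i = g j := by
    intro i j hij
    rw [hgc, hgc, Prod.mk.injEq] at hij
    obtain ⟨e1, e2⟩ := hij
    have e3 : z s(c (j + 1), c i) ≠ 0 := by
      rw [← e1, Sym2.eq_swap]
      exact h1 i
    rw [hgc, hgc, e1]
    rcases h3 j _ e3 with e4 | e4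
    · rw [e4]
    · exfalso
      have e5 : c (i + 2) = c (j + 2) := e2
      exact h2 i (e5.trans e4.symm)
  have hback' : ∀ k i j, g (i + k) = g (j + k) → g i = g j := by
    intro k
    induction k with
    | zero => exact fun i j h => h
    | succ k ih => exact fun i j h => ih i j (hback _ _ h)
  have hforw : ∀ k i j, g i = g j → g (i + k) = g (j + k) := by
    intro k
    induction k with
    | zero => exact fun i j h => h
    | succ k ih =>
      intro i j h
      have h4 := ih i j h
      show g (i + k + 1) = g (j + k + 1)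
      rw [hgs, hgs, h4]
  -- the period
  have hex : ∃ n, 0 < n ∧ g n = g 0 := by
    obtain ⟨i, j, hij, hg⟩ := Finite.exists_ne_map_eq_of_infinite g
    wlog hlt : i < j generalizing i j
    · exact this j i hij.symm hg.symm (by omega)
    refine ⟨j - i, by omega, ?_⟩
    apply hback' i
    rw [Nat.sub_add_cancel hlt.le, zero_add]
    exact hg.symm
  set n := Nat.find hex with hn
  obtain ⟨hn0, hgn⟩ := Nat.find_spec hex
  have hmin : ∀ k, 0 < k → k < n → g k ≠ g 0 := by
    intro k hk hkn h
    exact Nat.find_min hex hkn ⟨hk, h⟩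
  have hper : ∀ i, g (i + n) = g i := by
    intro i
    have h4 := hforw i n 0 hgn
    rw [zero_add] at h4
    rw [add_comm i n]
    exact h4
  have hcper : ∀ i, c (i + n) = c i := by
    intro i
    rw [hc, hc, hper]
  have hn3 : 3 ≤ n := by
    by_contra hcon
    have h4 : n = 1 ∨ n = 2 := by
      have : 0 < n := hn0
      omega
    rcases h4 with h4 | h4
    · have h5 := hcper 0
      rw [h4] at h5
      apply h1 0
      rw [h5]
      exact hloop _
    · have h5 := hcper 0
      rw [h4] at h5
      exact h2 0 h5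
  have hinj' : ∀ i j, i < j → j < n → c i ≠ c j := by
    intro i j hij hjn hcij
    obtain ⟨j, rfl⟩ : ∃ j', j = j' + 1 := ⟨j - 1, by omega⟩
    have e1 : z s(c (j + 1), c (i + 1)) ≠ 0 := by
      rw [← hcij]
      exact h1 i
    rcases h3 j _ e1 with e2 | e2
    · obtain ⟨m, rfl⟩ : ∃ m, j = i + m := ⟨j - i, by omega⟩
      exact no_refl hloop h1 h2 h3 m i hcij e2
    · have e3 : g i = g (j + 1) := by
        rw [hgc, hgc, hcij, e2]
      have e4 : g (0 + i) = g (j + 1 - i + i) := by
        rw [zero_add, Nat.sub_add_cancel hij.le]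
        exact e3
      have e5 := hback' i 0 (j + 1 - i) e4
      exact hmin (j + 1 - i) (by omega) (by omega) e5.symm
  have hinj : ∀ i j, i < n → j < n → c i = c j → i = j := by
    intro i j hi hj hcij
    rcases Nat.lt_trichotomy i j with h | h | h
    · exact absurd hcij (hinj' i j h hj)
    · exact h
    · exact absurd hcij.symm (hinj' j i h hi)
  have hcn : c n = c 0 := by
    have := hcper 0
    rwa [zero_add] at this
  obtain ⟨k, hk⟩ : ∃ k, n = k + 1 := ⟨n - 1, by omega⟩
  obtain ⟨z', hz', _, hz'e⟩ := seq_circ G k (by omega) c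
    (fun i j hi hj h => hinj i j (by omega) (by omega) h)
    (fun i _ => hG.1 _ (h1 i)) (by
      have h4 := hG.1 _ (h1 k)
      rw [← hk, hcn] at h4
      exact h4)
  have hiff : ∀ e, z' e ≠ 0 ↔ ∃ i < n, e = s(c i, c (i + 1)) := by
    intro e
    rw [hz'e]
    constructor
    · rintro (h | ⟨i, hi, h⟩)
      · refine ⟨k, by omega, ?_⟩
        rw [← hk, hcn]
        exact h
      · exact ⟨i, by omega, h⟩
    · rintro ⟨i, hi, h⟩
      rcases Nat.lt_or_ge i k with h4 | h4
      · exact Or.inr ⟨i, h4, h⟩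
      · left
        have h5 : i = k := by omega
        rw [h5, ← hk, hcn] at h
        exact h
  have hzz : z' = z := by
    apply hz.eq_of_sub hz'
    · intro h0
      have h4 := (hiff s(c 0, c 1)).2 ⟨0, by omega, rfl⟩
      rw [h0] at h4
      exact h4 rfl
    · intro e he'
      obtain ⟨i, _, rfl⟩ := (hiff e).1 he'
      exact h1 i
  exact ⟨n, c, hn3, hcper, hinj, by rw [← hzz]; exact hiff⟩

end Pool.Agent.Work.MP_3035da_co.K
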