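import Pool.Agent.Work.MP_3035da_co.T.Defs

/-!
Module T.PUSH: a larger vertex type.  `φ : V ↪ W`, `G.map φ` is the image graph (the other vertices are
isolated).  `Sym2.map φ` is injective (`Sym2.map.injective`).

push_map: `push φ z (Sym2.map φ e) = z e`.  push_off: `push φ z e = 0` if `e` is not in the range.
push_faces: mem: the boundary of `push φ z` at `φ v` is `bd z v`, at other vertices `0`.  two: clear.
span: a cycle `z'` of `G.map φ` is supported on the range of `Sym2.map φ`, and
`z e = z' (Sym2.map φ e)` is a cycle of `G` with `z' = push φ z`; `push φ` is additive.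
push_conn: `U (G.map φ)` is the image of `U G`; walks are mapped; the vertex to be avoided may be
outside the range (then use a vertex of `G` ... the two vertices `a ≠ b` of `U G` are joined in `G`: if
`U G = {a, b}` they are adjacent (each has a neighbour in `U G`); otherwise use `TwoConn` with a third
vertex of `U G`).
push_enum: clear.
-/

set_option autoImplicit false

namespace Pool.Agent.Work.MP_3035da_co.K

open Finset

section
variable {V W : Type} [Fintype V] [Fintype W] (φ : V ↪ W)

theorem push_map (z : Chain V) (e : Sym2 V) : push φ z (Sym2.map φ e) = z e := by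
  have h : ∃ e', Sym2.map φ e' = Sym2.map φ e := ⟨e, rfl⟩
  unfold push
  rw [dif_pos h]
  congr 1
  exact Sym2.map.injective φ.injective h.choose_spec

theorem push_off (z : Chain V) (e : Sym2 W) (he : ∀ e', Sym2.map φ e' ≠ e) : push φ z e = 0 := by
  unfold push
  rw [dif_neg]
  rintro ⟨e', h⟩
  exact he e' h

omit [Fintype V] [Fintype W] in
private theorem push_edge {G : SimpleGraph V} (e : Sym2 V) :
    Sym2.map φ e ∈ (G.map φ).edgeSet ↔ e ∈ G.edgeSet := by
  induction e using Sym2.ind with
  | _ a b => simp [SimpleGraph.map_adj]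

omit [Fintype V] [Fintype W] in
private theorem push_edge_range {G : SimpleGraph V} (e : Sym2 W) (he : e ∈ (G.map φ).edgeSet) :
    ∃ e', Sym2.map φ e' = e := by
  induction e using Sym2.ind with
  | _ a b =>
    rw [SimpleGraph.mem_edgeSet, SimpleGraph.map_adj] at he
    obtain ⟨u, v, -, rfl, rfl⟩ := he
    exact ⟨s(u, v), rfl⟩

private theorem push_bd (z : Chain V) (v : V) : bd (push φ z) (φ v) = bd z v := by
  unfold bd
  symm
  refine Fintype.sum_of_injective φ φ.injective _ _ ?_ ?_
  · intro w hw
    refine push_off φ z _ ?_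
    intro e' he'
    have : w ∈ Sym2.map φ e' := by rw [he']; simp
    rw [Sym2.mem_map] at this
    obtain ⟨x, -, hx⟩ := this
    exact hw ⟨x, hx⟩
  · intro w
    exact (push_map φ z s(v, w)).symm

private theorem push_bd_off (z : Chain V) (w : W) (hw : w ∉ Set.range φ) :
    bd (push φ z) w = 0 := by
  unfold bd
  refine sum_eq_zero fun w' _ => push_off φ z _ ?_
  intro e' he'
  have : w ∈ Sym2.map φ e' := by rw [he']; simp
  rw [Sym2.mem_map] at this
  obtain ⟨x, -, hx⟩ := this
  exact hw ⟨x, hx⟩

private theorem push_sum {ι : Type} (S : Finset ι) (f : ι → Chain V) :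
    push φ (∑ i ∈ S, f i) = ∑ i ∈ S, push φ (f i) := by
  funext e
  rw [Finset.sum_apply]
  by_cases he : ∃ e', Sym2.map φ e' = e
  · obtain ⟨e', rfl⟩ := he
    rw [push_map, Finset.sum_apply]
    exact sum_congr rfl fun i _ => (push_map φ (f i) e').symm
  · push Not at he
    rw [push_off φ _ e he]
    exact (sum_eq_zero fun i _ => push_off φ (f i) e he).symm

theorem push_faces {ι : Type} [Fintype ι] {G : SimpleGraph V} {f : ι → Chain V}
    (hf : FaceSys G f) : FaceSys (G.map φ) (fun i => push φ (f i)) := by
  refine ⟨?_, ?_, ?_⟩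
  · intro i
    refine ⟨?_, ?_⟩
    · intro e he
      by_cases hr : ∃ e', Sym2.map φ e' = e
      · obtain ⟨e', rfl⟩ := hr
        rw [push_map] at he
        exact (push_edge φ e').mpr ((hf.mem i).1 e' he)
      · push Not at hr
        exact absurd (push_off φ (f i) e hr) he
    · intro w
      by_cases hw : w ∈ Set.range φ
      · obtain ⟨v, rfl⟩ := hw
        rw [push_bd]
        exact (hf.mem i).2 v
      · exact push_bd_off φ (f i) w hw
  · intro e
    by_cases hr : ∃ e', Sym2.map φ e' = e
    · obtain ⟨e', rfl⟩ := hr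
      simp only [push_map]
      exact hf.two e'
    · push Not at hr
      exact Or.inl fun i => push_off φ (f i) e hr
  · intro z' hz'
    have hz : z' = push φ (fun e => z' (Sym2.map φ e)) := by
      funext e
      by_cases hr : ∃ e', Sym2.map φ e' = e
      · obtain ⟨e', rfl⟩ := hr
        rw [push_map]
      · rw [push_off φ _ e (by push Not at hr; exact hr)]
        by_contra hne
        exact hr (push_edge_range φ e (hz'.1 e hne))
    have hmem : (fun e => z' (Sym2.map φ e)) ∈ cyc G := by
      refine ⟨?_, ?_⟩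
      · intro e he
        exact (push_edge φ e).mp (hz'.1 _ he)
      · intro v
        rw [← push_bd φ, ← hz]
        exact hz'.2 (φ v)
    obtain ⟨S, hS⟩ := hf.span _ hmem
    refine ⟨S, ?_⟩
    rw [hz, hS, push_sum]

theorem push_conn {G : SimpleGraph V} (hG : TwoConn G) : TwoConn (G.map φ) := by
  intro w a b ha hb haw hbw
  obtain ⟨a₁, ha₁⟩ := ha
  obtain ⟨b₁, hb₁⟩ := hb
  rw [SimpleGraph.map_adj] at ha₁ hb₁
  obtain ⟨a', a₂, haa, rfl, rfl⟩ := ha₁
  obtain ⟨b', b₂, hbb, rfl, rfl⟩ := hb₁
  by_cases hw : w ∈ Set.range φ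
  · obtain ⟨w', rfl⟩ := hw
    have h := hG w' a' b' ⟨a₂, haa⟩ ⟨b₂, hbb⟩ (fun h => haw (by rw [h])) (fun h => hbw (by rw [h]))
    let F : av G {w'} →g av (G.map φ) {φ w'} :=
      ⟨φ, by
        rintro x y ⟨h1, h2, h3⟩
        refine ⟨?_, ?_, ?_⟩
        · rw [SimpleGraph.map_adj]
          exact ⟨x, y, h1, rfl, rfl⟩
        · intro hx
          exact h2 (φ.injective hx)
        · intro hx
          exact h3 (φ.injective hx)⟩
    exact h.map F
  · have h : G.Reachable a' b' := by
      by_cases hab : a' = b'
      · rw [hab]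
      by_cases hc : ∃ c, c ≠ a' ∧ c ≠ b'
      · obtain ⟨c, hc1, hc2⟩ := hc
        have h := hG c a' b' ⟨a₂, haa⟩ ⟨b₂, hbb⟩ hc1.symm hc2.symm
        have hle : av G {c} ≤ G := fun x y hxy => hxy.1
        exact h.mono hle
      · push Not at hc
        have h2 : a₂ = b' := hc a₂ (fun h => G.loopless.irrefl a' (h ▸ haa))
        rw [← h2]
        exact haa.reachable
    let F : G →g av (G.map φ) {w} :=
      ⟨φ, by
        intro x y h1
        refine ⟨?_, ?_, ?_⟩
        · rw [SimpleGraph.map_adj]
          exact ⟨x, y, h1, rfl, rfl⟩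
        · intro hx
          exact hw ⟨x, hx⟩
        · intro hx
          exact hw ⟨y, hx⟩⟩
    exact h.map F

theorem push_enum {z : Chain V} {n : ℕ} {c : ℕ → V} (h : Enum z n c) :
    Enum (push φ z) n (fun i => φ (c i)) := by
  refine ⟨h.hn, fun i => by simp only [h.per], fun i j hi hj hij => h.inj i j hi hj
    (φ.injective hij), ?_⟩
  intro e
  constructor
  · intro he
    by_cases hr : ∃ e', Sym2.map φ e' = e
    · obtain ⟨e', rfl⟩ := hr
      rw [push_map] at he
      obtain ⟨i, hi, rfl⟩ := (h.iff e').mp he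
      exact ⟨i, hi, rfl⟩
    · push Not at hr
      exact absurd (push_off φ z e hr) he
  · rintro ⟨i, hi, rfl⟩
    have h1 : (s(φ (c i), φ (c (i + 1))) : Sym2 W) = Sym2.map φ s(c i, c (i + 1)) := rfl
    rw [h1, push_map]
    exact (h.iff _).mpr ⟨i, hi, rfl⟩

end

/-- faces that are zero may be dropped -/
theorem drop_zero {V ι : Type} [Fintype V] [Fintype ι] {G : SimpleGraph V} {f : ι → Chain V}
    (hf : FaceSys G f) [Fintype {i // f i ≠ 0}] : FaceSys G (fun i : {i // f i ≠ 0} => f i.1) := by
  classical
  refine ⟨fun i => hf.mem i.1, ?_, ?_⟩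
  · intro e
    rcases hf.two e with h | h
    · exact Or.inl fun i => h i.1
    · right
      refine Eq.trans ?_ h
      refine card_bij (fun i _ => i.1) ?_ ?_ ?_
      · intro i hi
        simpa using hi
      · intro i _ j _ hij
        exact Subtype.ext hij
      · intro i hi
        have hi' : f i e = 1 := by simpa using hi
        refine ⟨⟨i, fun h0 => ?_⟩, by simpa using hi', rfl⟩
        rw [h0] at hi'
        exact absurd hi' (by simp)
  · intro z hz
    obtain ⟨S, hS⟩ := hf.span z hz
    refine ⟨S.subtype (fun i => f i ≠ 0), ?_⟩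
    rw [hS]
    have h1 : ∑ i ∈ S, f i = ∑ i ∈ S with f i ≠ 0, f i := by
      rw [sum_filter]
      refine sum_congr rfl fun i _ => ?_
      by_cases h : f i = 0
      · simp [h]
      · simp [h]
    rw [h1, ← Finset.sum_subtype_eq_sum_filter]

end Pool.Agent.Work.MP_3035da_co.K
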