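import Pool.Agent.Work.MP_3035da_co.T.All
import Pool.Agent.Work.MP_3035da_co.T.Push
import Pool.Agent.Work.MP_3035da_co.T.Enum
import Pool.Agent.Work.MP_3035da_co.T.Count

/-!
Module T.MAIN: a 2-connected plane graph of maximum degree at most `d` is a subgraph of a triangulated
plane graph of maximum degree at most `3 d + 6`.

`Plane G` gives a face system, `drop_zero` one with nonzero faces `f i`, `i ∈ ι`; these are circuits
(`face_circ`) with enumerations `c₀ i`, length `n i ≥ 3` (`circ_enum`).  `W = V ⊕ Σ i, Fin (n i)`,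
`φ = Function.Embedding.inl`, graph `G.map φ`, faces `push φ (f i)`, enumerations `φ (c₀ i j)`
(`push_enum`), `d i j = Sum.inr ⟨i, ⟨j % n i, _⟩⟩`.  Apply `fill_all`.

Degrees.  `w = φ v`: the neighbours are `φ u` with `G.Adj v u` (at most `d`), and `Sum.inr ⟨i, j⟩` with
`v = c₀ i j` or `v = c₀ i (j+1)`; for each `i` with `v ∈ VC (f i)` there are at most two such `j` (injectivity and
periodicity), for other `i` none; so at most `2 d` (`face_count`).  `w = Sum.inr ⟨i, j⟩`: the neighbours are
`φ (c₀ i j)`, `φ (c₀ i (j+1))`, `d i (j+1)`, `d i (j+n-1)`, and `d i k` with `j + k = n - 1` or `j + k = n`: at most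
6 (from `FillAdj _ _ _ w b` and `FillAdj _ _ _ b w`: in the second case `b = d i k` and `w = d i (k+1)` etc.,
which gives the same list).
-/

set_option autoImplicit false

namespace Pool.Agent.Work.MP_3035da_co.K

open Finset

private theorem tm_mod_succ {n j j' : ℕ} (hj : j < n) (hj' : j' < n)
    (h : j % n = (j' + 1) % n) : j' % n = (j + n - 1) % n := by
  rw [Nat.mod_eq_of_lt hj] at h
  rw [Nat.mod_eq_of_lt hj']
  rcases Nat.lt_or_ge (j' + 1) n with h1 | h1
  · rw [Nat.mod_eq_of_lt h1] at h
    subst h
    rw [show j' + 1 + n - 1 = j' + n by omega, Nat.add_mod_right, Nat.mod_eq_of_lt hj']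
  · have h2 : j' + 1 = n := by omega
    rw [h2, Nat.mod_self] at h
    subst h
    rw [show 0 + n - 1 = j' by omega, Nat.mod_eq_of_lt hj']

private theorem tm_mod_pred {n j j' : ℕ} (hj : j < n) (hj' : j' < n)
    (h : j % n = (j' + n - 1) % n) : j' % n = (j + 1) % n := by
  rw [Nat.mod_eq_of_lt hj] at h
  rw [Nat.mod_eq_of_lt hj']
  rcases Nat.eq_zero_or_pos j' with h1 | h1
  · subst h1
    rw [show 0 + n - 1 = n - 1 by omega, Nat.mod_eq_of_lt (by omega)] at h
    rw [show j + 1 = n by omega, Nat.mod_self]
  · rw [show j' + n - 1 = (j' - 1) + n by omega, Nat.add_mod_right,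
      Nat.mod_eq_of_lt (by omega)] at h
    rw [show j + 1 = j' by omega, Nat.mod_eq_of_lt hj']

theorem triangulate {V : Type} [Fintype V] {G : SimpleGraph V} (hP : Plane G) (hG : TwoConn G)
    {d : ℕ} (hd : ∀ v, (G.neighborSet v).ncard ≤ d) :
    ∃ (W : Type) (_ : Fintype W) (φ : V ↪ W) (G' : SimpleGraph W) (m : ℕ)
      (g : Fin m → Chain W), FaceSys G' g ∧ TwoConn G' ∧ (∀ k, IsTri (g k)) ∧
      (∀ a b, G.Adj a b → G'.Adj (φ a) (φ b)) ∧
      ∀ w, (G'.neighborSet w).ncard ≤ 3 * d + 6 := by
  classical
  obtain ⟨n0, f0, hf0⟩ := hP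
  have hf := drop_zero hf0
  have hcirc : ∀ i : {i // f0 i ≠ 0}, Circ (f0 i.1) := fun i => face_circ hG hf0 i.2
  choose n c0 hc0 using fun i => circ_enum (hcirc i)
  have hn3 : ∀ i, 3 ≤ n i := fun i => (hc0 i).hn
  have hnpos : ∀ i, 0 < n i := fun i => by have := hn3 i; omega
  let W : Type := V ⊕ (Σ i : {i // f0 i ≠ 0}, Fin (n i))
  let φ : V ↪ W := Function.Embedding.inl
  let D : (i : {i // f0 i ≠ 0}) → ℕ → W := fun i j => Sum.inr ⟨i, ⟨j % n i, Nat.mod_lt _ (hnpos i)⟩⟩
  have hDinj : ∀ i i' j j', D i j = D i' j' → i = i' ∧ ∀ h : i = i', j % n i = j' % n i := by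
    intro i i' j j' h
    have h1 := Sum.inr_injective h
    have h2 : i = i' := congrArg Sigma.fst h1
    subst h2
    refine ⟨rfl, fun _ => ?_⟩
    have h3 := eq_of_heq (Sigma.mk.inj h1).2
    exact congrArg Fin.val h3
  have hDin : ∀ i j v, D i j ≠ φ v := by
    intro i j v h
    exact Sum.inr_ne_inl h
  have hDmod : ∀ i j j', j % n i = j' % n i → D i j = D i j' := by
    intro i j j' h
    simp only [D, h]
  have hUφ : ∀ w b, (G.map φ).Adj w b → ∃ v u, G.Adj v u ∧ w = φ v ∧ b = φ u := by
    intro w b h
    rw [SimpleGraph.map_adj] at h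
    obtain ⟨v, u, h1, h2, h3⟩ := h
    exact ⟨v, u, h1, h2.symm, h3.symm⟩
  obtain ⟨G', m, g, hg, hconn, htri, hle, hadj⟩ :=
    fill_all (push_faces φ hf) (push_conn φ hG) (n := n) (c := fun i j => φ (c0 i j)) (d := D)
      (fun i => push_enum φ (hc0 i))
      (by
        intro i j k hj hk h
        have := (hDinj i i j k h).2 rfl
        rwa [Nat.mod_eq_of_lt hj, Nat.mod_eq_of_lt hk] at this)
      (by
        intro i i' j k hne h
        exact hne (hDinj i i' j k h).1)
      (by
        intro i j
        exact hDmod i _ _ (Nat.add_mod_right _ _))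
      (by
        rintro i j ⟨b, hb⟩
        obtain ⟨v, u, _, h2, _⟩ := hUφ _ _ hb
        exact hDin i j v h2)
  refine ⟨W, inferInstance, φ, G', m, g, hg, hconn, htri, ?_, ?_⟩
  · intro a b h
    refine hle ?_
    rw [SimpleGraph.map_adj]
    exact ⟨a, b, h, rfl, rfl⟩
  · rintro (v | ⟨i, ⟨j, hj⟩⟩)
    · -- old vertices
      let J : {i // f0 i ≠ 0} → ℕ := fun i =>
        if h : ∃ j, j < n i ∧ c0 i j = v then h.choose else 0
      have hJ : ∀ i j, j < n i → c0 i j = v → J i = j := by
        intro i j hj hjv
        have hex : ∃ j, j < n i ∧ c0 i j = v := ⟨j, hj, hjv⟩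
        have h1 : J i = hex.choose := dif_pos hex
        have h2 := hex.choose_spec
        rw [h1]
        exact (hc0 i).inj _ _ h2.1 hj (h2.2.trans hjv.symm)
      let F : Set {i // f0 i ≠ 0} := {i | v ∈ VC (f0 i.1)}
      have hFd : F.ncard ≤ d := (face_count hG hf v).trans (hd v)
      have hF1 : ∀ i j, j < n i → c0 i j = v → i ∈ F := by
        intro i j hj hjv
        refine ⟨c0 i (j + 1), ?_⟩
        rw [← hjv]
        exact ((hc0 i).iff _).mpr ⟨j, hj, rfl⟩
      have hF2 : ∀ i j, j < n i → c0 i (j + 1) = v → i ∈ F := by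
        intro i j hj hjv
        refine ⟨c0 i j, ?_⟩
        rw [← hjv, Sym2.eq_swap]
        exact ((hc0 i).iff _).mpr ⟨j, hj, rfl⟩
      have hsub : G'.neighborSet (φ v) ⊆ (φ '' G.neighborSet v) ∪
          (((fun i => D i (J i)) '' F) ∪ ((fun i => D i (J i + n i - 1)) '' F)) := by
        intro b hb
        have hb' : G'.Adj (φ v) b := hb
        rcases hadj _ _ hb' with h | ⟨i, h | h⟩
        · obtain ⟨v', u, h1, h2, h3⟩ := hUφ _ _ h
          have h4 : v = v' := φ.injective h2
          subst h4
          exact Or.inl ⟨u, h1, h3.symm⟩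
        · obtain ⟨j, hj, h1, _⟩ := h
          exact absurd h1.symm (hDin i j v)
        · right
          obtain ⟨j, hj, rfl, h2⟩ := h
          rcases h2 with h2 | h2 | h2 | h2 | ⟨k, _, _, h2⟩
          · have h3 : c0 i j = v := (φ.injective h2).symm
            left
            refine ⟨i, hF1 i j hj h3, ?_⟩
            simp only [hJ i j hj h3]
          · have h3 : c0 i (j + 1) = v := (φ.injective h2).symm
            right
            refine ⟨i, hF2 i j hj h3, ?_⟩
            show D i (J i + n i - 1) = D i j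
            rcases Nat.lt_or_ge (j + 1) (n i) with h4 | h4
            · rw [hJ i (j + 1) h4 h3]
              refine hDmod _ _ _ ?_
              rw [show j + 1 + n i - 1 = j + n i by omega, Nat.add_mod_right]
            · have h5 : j + 1 = n i := by omega
              have h6 : c0 i 0 = v := by
                rw [← h3, h5]
                have := (hc0 i).per 0
                rw [zero_add] at this
                exact this.symm
              rw [hJ i 0 (hnpos i) h6]
              congr 1
              omega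
          · exact absurd h2.symm (hDin i _ v)
          · exact absurd h2.symm (hDin i _ v)
          · exact absurd h2.symm (hDin i _ v)
      have h1 := Set.ncard_le_ncard hsub (Set.toFinite _)
      have h2 := Set.ncard_union_le (φ '' G.neighborSet v)
        (((fun i => D i (J i)) '' F) ∪ ((fun i => D i (J i + n i - 1)) '' F))
      have h3 := Set.ncard_union_le ((fun i => D i (J i)) '' F)
        ((fun i => D i (J i + n i - 1)) '' F)
      have h4 : (φ '' G.neighborSet v).ncard ≤ (G.neighborSet v).ncard :=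
        Set.ncard_image_le (Set.toFinite _)
      have h5 : ((fun i => D i (J i)) '' F).ncard ≤ F.ncard :=
        Set.ncard_image_le (Set.toFinite _)
      have h6 : ((fun i => D i (J i + n i - 1)) '' F).ncard ≤ F.ncard :=
        Set.ncard_image_le (Set.toFinite _)
      have h7 := hd v
      show (G'.neighborSet (φ v)).ncard ≤ 3 * d + 6
      omega
    · -- new vertices
      have hw : (Sum.inr ⟨i, ⟨j, hj⟩⟩ : W) = D i j := by
        show (Sum.inr ⟨i, ⟨j, hj⟩⟩ : W) = Sum.inr ⟨i, ⟨j % n i, Nat.mod_lt _ (hnpos i)⟩⟩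
        congr 3
        exact (Nat.mod_eq_of_lt hj).symm
      rw [hw]
      have hsub : G'.neighborSet (D i j) ⊆ ↑({φ (c0 i j), φ (c0 i (j + 1)), D i (j + 1),
          D i (j + n i - 1), D i (n i - 1 - j), D i (n i - j)} : Finset W) := by
        intro b hb
        have hb' : G'.Adj (D i j) b := hb
        simp only [coe_insert, coe_singleton, Set.mem_insert_iff, Set.mem_singleton_iff]
        rcases hadj _ _ hb' with h | ⟨i', h | h⟩
        · obtain ⟨v', u, h1, h2, h3⟩ := hUφ _ _ h
          exact absurd h2 (hDin i j v')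
        · obtain ⟨j', hj', h1, h2⟩ := h
          obtain ⟨h3, h4⟩ := hDinj _ _ _ _ h1
          subst h3
          have h5 := h4 rfl
          rw [Nat.mod_eq_of_lt hj, Nat.mod_eq_of_lt hj'] at h5
          subst h5
          rcases h2 with h2 | h2 | h2 | h2 | ⟨k, hk, h6 | h6, h2⟩
          · exact Or.inl h2
          · exact Or.inr (Or.inl h2)
          · exact Or.inr (Or.inr (Or.inl h2))
          · exact Or.inr (Or.inr (Or.inr (Or.inl h2)))
          · refine Or.inr (Or.inr (Or.inr (Or.inr (Or.inl ?_))))
            rw [h2, show k = n i - 1 - j by omega]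
          · refine Or.inr (Or.inr (Or.inr (Or.inr (Or.inr ?_))))
            rw [h2, show k = n i - j by omega]
        · obtain ⟨j', hj', rfl, h2⟩ := h
          rcases h2 with h2 | h2 | h2 | h2 | ⟨k, hk, h6, h2⟩
          · exact absurd h2 (hDin i j _)
          · exact absurd h2 (hDin i j _)
          · obtain ⟨h3, h4⟩ := hDinj _ _ _ _ h2
            subst h3
            refine Or.inr (Or.inr (Or.inr (Or.inl ?_)))
            exact hDmod _ _ _ (tm_mod_succ hj hj' (h4 rfl))
          · obtain ⟨h3, h4⟩ := hDinj _ _ _ _ h2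
            subst h3
            refine Or.inr (Or.inr (Or.inl ?_))
            exact hDmod _ _ _ (tm_mod_pred hj hj' (h4 rfl))
          · obtain ⟨h3, h4⟩ := hDinj _ _ _ _ h2
            subst h3
            have h5 := h4 rfl
            rw [Nat.mod_eq_of_lt hj, Nat.mod_eq_of_lt hk] at h5
            subst h5
            rcases h6 with h6 | h6
            · refine Or.inr (Or.inr (Or.inr (Or.inr (Or.inl ?_))))
              rw [show j' = n i - 1 - j by omega]
            · refine Or.inr (Or.inr (Or.inr (Or.inr (Or.inr ?_))))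
              rw [show j' = n i - j by omega]
      have h1 := Set.ncard_le_ncard hsub (Set.toFinite _)
      rw [Set.ncard_coe_finset] at h1
      have h2 := card_le_six (a := φ (c0 i j)) (b := φ (c0 i (j + 1))) (c := D i (j + 1))
        (d := D i (j + n i - 1)) (e := D i (n i - 1 - j)) (f := D i (n i - j))
      omega

end Pool.Agent.Work.MP_3035da_co.K
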