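import Pool.Agent.Work.MP_3035da_co.T.Fill

/-!
Module T.ALL: all faces are filled, one after the other.

Induct on the finset `P` of the faces that are already filled.  `P = ∅`: index type
`{j // j ∉ ∅} ⊕ Fin 0 ≃ ι` (transport along a bijection as in `FaceSys.plane`).  Step `insert i P`, `i ∉ P`:
apply `fill_face` to the current graph `G'` and the face `Sum.inl ⟨i, _⟩` with `c i`, `d i`.  `d i j ∉ U G'`: an
edge of `G'` at `d i j` is an edge of `G` (no: `hdU`) or a new edge in a face `i' ∈ P`, whose ends are of the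
form `d i' k` (not `d i j`, by `hdd`) or `c i' k` (in `U G`, while `d i j ∉ U G`; `c i' k ∈ U G` because
`s(c i' k, c i' (k+1))` is an edge of the face).  Then transport the index types:
`{j // j ≠ inl i} ⊕ Fin m'` to `{j // j ∉ insert i P} ⊕ Fin (m + m')`.
At the end `P = univ`.
-/

set_option autoImplicit false

namespace Pool.Agent.Work.MP_3035da_co.K

open Finset

private theorem fs_equiv {V ι κ : Type} [Fintype V] [Fintype ι] [Fintype κ] {G : SimpleGraph V}
    {f : ι → Chain V} (hf : FaceSys G f) (e : κ ≃ ι) : FaceSys G (fun k => f (e k)) := by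
  classical
  refine ⟨fun k => hf.mem _, fun s => ?_, fun z hz => ?_⟩
  · rcases hf.two s with h | h
    · exact Or.inl fun k => h _
    · refine Or.inr (Eq.trans ?_ h)
      refine card_bij' (fun k _ => e k) (fun i _ => e.symm i) ?_ ?_ ?_ ?_ <;> simp
  · obtain ⟨S, hS⟩ := hf.span z hz
    refine ⟨S.map e.symm.toEmbedding, ?_⟩
    rw [hS, sum_map]
    simp

/-- the index types of one step -/
private def stepEquiv {ι : Type} [DecidableEq ι] (P : Finset ι) (i : ι) (hi : i ∉ P) (m m' : ℕ) :
    {j // j ∉ insert i P} ⊕ Fin (m + m') ≃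
      {x : {j // j ∉ P} ⊕ Fin m // x ≠ Sum.inl ⟨i, hi⟩} ⊕ Fin m' where
  toFun x := match x with
    | Sum.inl j => Sum.inl ⟨Sum.inl ⟨j.1, fun h => j.2 (mem_insert_of_mem h)⟩, fun h => j.2 (by
        have h1 := Sum.inl.inj h
        have h2 : j.1 = i := congrArg Subtype.val h1
        rw [h2]
        exact mem_insert_self _ _)⟩
    | Sum.inr k => match finSumFinEquiv.symm k with
      | Sum.inl k1 => Sum.inl ⟨Sum.inr k1, fun h => Sum.inr_ne_inl h⟩
      | Sum.inr k2 => Sum.inr k2
  invFun y := match y with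
    | Sum.inl ⟨Sum.inl j, hj⟩ => Sum.inl ⟨j.1, fun h => by
        rcases mem_insert.1 h with h1 | h1
        · exact hj (congrArg Sum.inl (Subtype.ext h1))
        · exact j.2 h1⟩
    | Sum.inl ⟨Sum.inr k1, _⟩ => Sum.inr (finSumFinEquiv (Sum.inl k1))
    | Sum.inr k2 => Sum.inr (finSumFinEquiv (Sum.inr k2))
  left_inv x := by
    rcases x with j | k
    · rfl
    · obtain ⟨y, rfl⟩ := finSumFinEquiv.surjective k
      rcases y with k1 | k2
      · simp only [Equiv.symm_apply_apply]
      · simp only [Equiv.symm_apply_apply]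
  right_inv y := by
    rcases y with ⟨j | k1, hj⟩ | k2
    · rfl
    · simp only [Equiv.symm_apply_apply]
    · simp only [Equiv.symm_apply_apply]

theorem fill_all {V ι : Type} [Fintype V] [Fintype ι] {G : SimpleGraph V} {f : ι → Chain V}
    (hf : FaceSys G f) (hG : TwoConn G) {n : ι → ℕ} {c d : ι → ℕ → V}
    (hc : ∀ i, Enum (f i) (n i) (c i))
    (hd : ∀ i j k, j < n i → k < n i → d i j = d i k → j = k)
    (hdd : ∀ i i' j k, i ≠ i' → d i j ≠ d i' k)
    (hper : ∀ i j, d i (j + n i) = d i j) (hdU : ∀ i j, d i j ∉ U G) :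
    ∃ (G' : SimpleGraph V) (m : ℕ) (g : Fin m → Chain V),
      FaceSys G' g ∧ TwoConn G' ∧ (∀ k, IsTri (g k)) ∧ G ≤ G' ∧
      ∀ a b, G'.Adj a b → G.Adj a b ∨
        ∃ i, FillAdj (n i) (c i) (d i) a b ∨ FillAdj (n i) (c i) (d i) b a := by
  classical
  have hcU : ∀ i j, j < n i → c i j ∈ U G ∧ c i (j + 1) ∈ U G := by
    intro i j hj
    have h1 : f i s(c i j, c i (j + 1)) ≠ 0 := ((hc i).iff _).2 ⟨j, hj, rfl⟩
    have h2 : G.Adj (c i j) (c i (j + 1)) := (hf.mem i).1 _ h1
    exact ⟨⟨_, h2⟩, ⟨_, h2.symm⟩⟩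
  have key : ∀ P : Finset ι, ∃ (G' : SimpleGraph V) (m : ℕ) (g : {j // j ∉ P} ⊕ Fin m → Chain V),
      FaceSys G' g ∧ TwoConn G' ∧ (∀ j, g (Sum.inl j) = f j.1) ∧ (∀ k, IsTri (g (Sum.inr k))) ∧
      G ≤ G' ∧ ∀ a b, G'.Adj a b → G.Adj a b ∨
        ∃ i ∈ P, FillAdj (n i) (c i) (d i) a b ∨ FillAdj (n i) (c i) (d i) b a := by
    intro P
    induction P using Finset.induction_on with
    | empty =>
      let e : {j : ι // j ∉ (∅ : Finset ι)} ⊕ Fin 0 ≃ ι :=
        (Equiv.sumEmpty _ _).trans (Equiv.subtypeUnivEquiv fun j => notMem_empty j)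
      exact ⟨G, 0, fun k => f (e k), fs_equiv hf e, hG, fun j => rfl, fun k => k.elim0, le_rfl,
        fun a b h => Or.inl h⟩
    | insert i P hi ih =>
      obtain ⟨G', m, g, hg, hG', hgf, hgt, hle, hadj⟩ := ih
      obtain ⟨G'', m', g', hg', hG'', hgf', hgt', hle', hadj'⟩ := fill_face (i := Sum.inl ⟨i, hi⟩)
        hg hG' (n := n i) (c := c i) (d := d i) (by rw [hgf]; exact hc i) (hd i) (hper i) (by
          rintro j ⟨b, hb⟩
          rcases hadj _ _ hb with h | ⟨i', hi', h | h⟩
          · exact hdU i j ⟨b, h⟩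
          · obtain ⟨k, _, hk, _⟩ := h
            exact hdd i i' j k (fun h => hi (h ▸ hi')) hk
          · obtain ⟨k, hkn, _, h⟩ := h
            have hne : i ≠ i' := fun h => hi (h ▸ hi')
            rcases h with h | h | h | h | ⟨k', _, _, h⟩
            · exact hdU i j (h ▸ (hcU i' k hkn).1)
            · exact hdU i j (h ▸ (hcU i' k hkn).2)
            · exact hdd i i' _ _ hne h
            · exact hdd i i' _ _ hne h
            · exact hdd i i' _ _ hne h)
      refine ⟨G'', m + m', fun x => g' (stepEquiv P i hi m m' x), fs_equiv hg' _, hG'',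
        fun j => ?_, fun k => ?_, hle.trans hle', fun a b hab => ?_⟩
      · show g' (Sum.inl ⟨Sum.inl ⟨j.1, _⟩, _⟩) = f j.1
        rw [hgf', hgf]
      · obtain ⟨y, rfl⟩ := finSumFinEquiv.surjective k
        rcases y with k1 | k2
        · have h1 : stepEquiv P i hi m m' (Sum.inr (finSumFinEquiv (Sum.inl k1))) =
              Sum.inl ⟨Sum.inr k1, fun h => Sum.inr_ne_inl h⟩ := by
            simp only [stepEquiv, Equiv.coe_fn_mk, Equiv.symm_apply_apply]
          beta_reduce
          rw [h1, hgf']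
          exact hgt k1
        · have h1 : stepEquiv P i hi m m' (Sum.inr (finSumFinEquiv (Sum.inr k2))) =
              Sum.inr k2 := by
            simp only [stepEquiv, Equiv.coe_fn_mk, Equiv.symm_apply_apply]
          beta_reduce
          rw [h1]
          exact hgt' k2
      · rcases hadj' a b hab with h | h | h
        · rcases hadj a b h with h | ⟨i', hi', h⟩
          · exact Or.inl h
          · exact Or.inr ⟨i', mem_insert_of_mem hi', h⟩
        · exact Or.inr ⟨i, mem_insert_self _ _, Or.inl h⟩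
        · exact Or.inr ⟨i, mem_insert_self _ _, Or.inr h⟩
  obtain ⟨G', m, g, hg, hG', _, hgt, hle, hadj⟩ := key univ
  haveI : IsEmpty {j : ι // j ∉ (univ : Finset ι)} := ⟨fun j => j.2 (mem_univ _)⟩
  refine ⟨G', m, fun k => g ((Equiv.emptySum {j : ι // j ∉ (univ : Finset ι)} (Fin m)).symm k),
    fs_equiv hg _, hG', fun k => hgt k, hle, fun a b hab => ?_⟩
  rcases hadj a b hab with h | ⟨i, _, h⟩
  · exact Or.inl h
  · exact Or.inr ⟨i, h⟩

end Pool.Agent.Work.MP_3035da_co.K
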