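import Pool.Agent.Work.MP_3035da_co.T.Reach

/-!
Module T.ANN: the annulus.

`annG G c d k`: `G` with the edges `s(c j, d j)`, `s(c (j+1), d j)` for `j < k`, defined recursively with
`addV`.  `ann_adj`: description of the edges, by induction on `k`.

ann_reach: by induction on `k ≤ n`, `Reach f i (annG G c d k) (f i + ∑ j < k, tri (c j) (c (j+1)) (d j))`.
Step: `reach_vert` at `a = c k`, `b = c (k+1)`, `w = d k`: the value of the current face at
`s(c k, c (k+1))` is 1: `f i` has value 1 (`Enum`), and for `j < k` the triangle `tri (c j) (c (j+1)) (d j)`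
has value 0 there: `s(c j, c (j+1)) ≠ s(c k, c (k+1))` for `j < k < n` (injectivity and periodicity:
`c (k+1)` is `c (k+1)` or `c 0`; use `n ≥ 3`), and `d j` is not `c k`, `c (k+1)` (`d j` is isolated in `G`, the
`c` are not).  `d k ∉ U (annG G c d k)` by `ann_adj`: `d k` is not in `U G`, and `d k ≠ d j` for `j < k`,
`d k ≠ c j`.

ann_face: for `k = n` the face is `∑ j < n, (sing s(c j, d j) + sing s(c (j+1), d j))`, because
`f i = ∑ j < n, sing s(c j, c (j+1))` (values by `Enum`; the pairs are different) and `x + x = 0`.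
-/

set_option autoImplicit false

namespace Pool.Agent.Work.MP_3035da_co.K

open Finset

/-- the graph after `k` steps -/
def annG {V : Type} (G : SimpleGraph V) (c d : ℕ → V) : ℕ → SimpleGraph V
  | 0 => G
  | k + 1 => addV (annG G c d k) (c k) (c (k + 1)) (d k)

private theorem ann_pm {V : Type} {n : ℕ} {d : ℕ → V} (hper : ∀ j, d (j + n) = d j) (j : ℕ) :
    d (j % n) = d j :=
  Function.Periodic.map_mod_nat hper j

private theorem ann_pinj {V : Type} {n : ℕ} {d : ℕ → V} (hn : 0 < n)
    (hper : ∀ j, d (j + n) = d j) (hinj : ∀ j k, j < n → k < n → d j = d k → j = k)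
    {j k : ℕ} (h : d j = d k) : j % n = k % n := by
  apply hinj _ _ (Nat.mod_lt _ hn) (Nat.mod_lt _ hn)
  rw [ann_pm hper, ann_pm hper, h]

private theorem ann_edge_inj {V : Type} {z : Chain V} {n : ℕ} {c : ℕ → V} (hc : Enum z n c)
    {j k : ℕ} (hj : j < n) (hk : k < n) (h : s(c j, c (j + 1)) = s(c k, c (k + 1))) : j = k := by
  have hn := hc.hn
  rcases Sym2.eq_iff.1 h with ⟨h1, _⟩ | ⟨h1, h2⟩
  · exact hc.inj j k hj hk h1
  · have e1 := ann_pinj (by omega) hc.per hc.inj h1
    have e2 := ann_pinj (by omega) hc.per hc.inj h2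
    rw [Nat.mod_eq_of_lt hj] at e1
    rw [Nat.mod_eq_of_lt hk] at e2
    exfalso
    rcases Nat.lt_or_ge (k + 1) n with h3 | h3
    · rw [Nat.mod_eq_of_lt h3] at e1
      rcases Nat.lt_or_ge (j + 1) n with h4 | h4
      · rw [Nat.mod_eq_of_lt h4] at e2
        omega
      · have h5 : j + 1 = n := by omega
        rw [h5, Nat.mod_self] at e2
        omega
    · have h5 : k + 1 = n := by omega
      rw [h5, Nat.mod_self] at e1
      rw [e1, Nat.mod_eq_of_lt (by omega)] at e2
      omega

private theorem ann_enum_adj {V ι : Type} [Fintype V] [Fintype ι] {G : SimpleGraph V}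
    {f : ι → Chain V} {i : ι} (hf : FaceSys G f) {n : ℕ} {c : ℕ → V} (hc : Enum (f i) n c)
    (j : ℕ) : G.Adj (c j) (c (j + 1)) := by
  have hn := hc.hn
  have h1 : c (j + 1) = c (j % n + 1) := by
    rw [← ann_pm hc.per (j + 1), ← ann_pm hc.per (j % n + 1)]
    congr 1
    simp
  rw [← ann_pm hc.per j, h1]
  have h2 : f i s(c (j % n), c (j % n + 1)) ≠ 0 :=
    (hc.iff _).2 ⟨j % n, Nat.mod_lt _ (by omega), rfl⟩
  have h3 := hf.edge h2
  rwa [SimpleGraph.mem_edgeSet] at h3

private theorem ann_enum_U {V ι : Type} [Fintype V] [Fintype ι] {G : SimpleGraph V}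
    {f : ι → Chain V} {i : ι} (hf : FaceSys G f) {n : ℕ} {c : ℕ → V} (hc : Enum (f i) n c)
    (j : ℕ) : c j ∈ U G := ⟨_, ann_enum_adj hf hc j⟩

private theorem ann_enum_sum {V : Type} {z : Chain V} {n : ℕ} {c : ℕ → V} (hc : Enum z n c) :
    z = ∑ j ∈ range n, sing s(c j, c (j + 1)) := by
  classical
  funext e
  rw [Finset.sum_apply]
  by_cases h : z e = 0
  · rw [h, Finset.sum_eq_zero]
    intro j hj
    apply sing_ne
    intro he
    exact (hc.iff e).2 ⟨j, Finset.mem_range.1 hj, he⟩ h
  · obtain ⟨k, hk, he⟩ := (hc.iff e).1 h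
    rw [Finset.sum_eq_single k]
    · rw [he, sing_self, ← he]
      exact (ne_zero_iff _).1 h
    · intro j hj hjk
      apply sing_ne
      rw [he]
      intro h1
      exact hjk (ann_edge_inj hc (Finset.mem_range.1 hj) hk h1.symm)
    · intro h1
      exact absurd (Finset.mem_range.2 hk) h1

theorem ann_adj {V : Type} {G : SimpleGraph V} {c d : ℕ → V} (k : ℕ) (a b : V) :
    (annG G c d k).Adj a b ↔ G.Adj a b ∨ (a ≠ b ∧ ∃ j < k,
      (a = c j ∧ b = d j) ∨ (b = c j ∧ a = d j) ∨ (a = c (j + 1) ∧ b = d j) ∨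
      (b = c (j + 1) ∧ a = d j)) := by

  induction k with
  | zero => simp [annG]
  | succ k ih =>
    show (annG G c d k ⊔ SimpleGraph.fromEdgeSet {s(c k, d k), s(c (k + 1), d k)}).Adj a b ↔ _
    rw [SimpleGraph.sup_adj, ih, SimpleGraph.fromEdgeSet_adj]
    simp only [Set.mem_insert_iff, Set.mem_singleton_iff, Sym2.eq_iff]
    constructor
    · rintro ((h | ⟨hab, j, hj, h⟩) | ⟨h, hab⟩)
      · exact Or.inl h
      · exact Or.inr ⟨hab, j, by omega, h⟩
      · refine Or.inr ⟨hab, k, by omega, ?_⟩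
        rcases h with (⟨h1, h2⟩ | ⟨h1, h2⟩) | (⟨h1, h2⟩ | ⟨h1, h2⟩)
        · exact Or.inl ⟨h1, h2⟩
        · exact Or.inr (Or.inl ⟨h2, h1⟩)
        · exact Or.inr (Or.inr (Or.inl ⟨h1, h2⟩))
        · exact Or.inr (Or.inr (Or.inr ⟨h2, h1⟩))
    · rintro (h | ⟨hab, j, hj, h⟩)
      · exact Or.inl (Or.inl h)
      · rcases Nat.lt_or_ge j k with h1 | h1
        · exact Or.inl (Or.inr ⟨hab, j, h1, h⟩)
        · have h2 : j = k := by omega
          subst h2
          refine Or.inr ⟨?_, hab⟩
          rcases h with ⟨h1, h2⟩ | ⟨h1, h2⟩ | ⟨h1, h2⟩ | ⟨h1, h2⟩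
          · exact Or.inl (Or.inl ⟨h1, h2⟩)
          · exact Or.inl (Or.inr ⟨h2, h1⟩)
          · exact Or.inr (Or.inl ⟨h1, h2⟩)
          · exact Or.inr (Or.inr ⟨h2, h1⟩)

theorem ann_reach {V ι : Type} [Fintype V] [Fintype ι] [DecidableEq ι] {G : SimpleGraph V}
    {f : ι → Chain V} {i : ι} (hf : FaceSys G f) (hG : TwoConn G) {n : ℕ} {c d : ℕ → V}
    (hc : Enum (f i) n c) (hd : ∀ j k, j < n → k < n → d j = d k → j = k)
    (hdU : ∀ j, d j ∉ U G) :
    Reach f i (annG G c d n) (∑ j ∈ range n, (sing s(c j, d j) + sing s(c (j + 1), d j))) := by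
  classical
  have hn := hc.hn
  have hcd : ∀ j k, c j ≠ d k := fun j k h => hdU k (h ▸ ann_enum_U hf hc j)
  have key : ∀ k, k ≤ n → Reach f i (annG G c d k)
      (f i + ∑ j ∈ range k, tri (c j) (c (j + 1)) (d j)) := by
    intro k
    induction k with
    | zero =>
      intro _
      rw [Finset.range_zero, Finset.sum_empty, add_zero]
      exact reach_start hf hG i
    | succ k ih =>
      intro hk
      have h1 := ih (by omega)
      have h2 : (f i + ∑ j ∈ range k, tri (c j) (c (j + 1)) (d j)) s(c k, c (k + 1)) = 1 := by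
        rw [Pi.add_apply, Finset.sum_apply]
        have h3 : f i s(c k, c (k + 1)) = 1 :=
          (ne_zero_iff _).1 ((hc.iff _).2 ⟨k, by omega, rfl⟩)
        have h4 : ∑ j ∈ range k, tri (c j) (c (j + 1)) (d j) s(c k, c (k + 1)) = 0 := by
          refine Finset.sum_eq_zero fun j hj => ?_
          rw [Finset.mem_range] at hj
          unfold tri
          rw [Pi.add_apply, Pi.add_apply, sing_ne, sing_ne, sing_ne]
          · rfl
          · intro h
            rcases Sym2.eq_iff.1 h with ⟨_, h⟩ | ⟨h, _⟩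
            · exact hcd _ _ h
            · exact hcd _ _ h
          · intro h
            rcases Sym2.eq_iff.1 h with ⟨_, h⟩ | ⟨h, _⟩
            · exact hcd _ _ h
            · exact hcd _ _ h
          · intro h
            have := ann_edge_inj hc (by omega) (by omega) h
            omega
        rw [h3, h4, add_zero]
      have h5 : d k ∉ U (annG G c d k) := by
        rintro ⟨w, hw⟩
        rw [ann_adj] at hw
        rcases hw with hw | ⟨_, j, hj, hw⟩
        · exact hdU k ⟨w, hw⟩
        · rcases hw with ⟨h, _⟩ | ⟨_, h⟩ | ⟨h, _⟩ | ⟨_, h⟩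
          · exact hcd _ _ h.symm
          · have := hd k j (by omega) (by omega) h
            omega
          · exact hcd _ _ h.symm
          · have := hd k j (by omega) (by omega) h
            omega
      have h6 := reach_vert h1 h2 h5
      rw [Finset.sum_range_succ, ← add_assoc]
      exact h6
  have h := key n le_rfl
  have hF : f i + ∑ j ∈ range n, tri (c j) (c (j + 1)) (d j) =
      ∑ j ∈ range n, (sing s(c j, d j) + sing s(c (j + 1), d j)) := by
    have h1 : ∀ j ∈ range n, tri (c j) (c (j + 1)) (d j) = sing s(c j, c (j + 1)) +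
        (sing s(c j, d j) + sing s(c (j + 1), d j)) := fun j _ => by
      unfold tri
      abel
    rw [Finset.sum_congr rfl h1, Finset.sum_add_distrib, ← ann_enum_sum hc, ← add_assoc,
      chain_add_self, zero_add]
  rw [hF] at h
  exact h

end Pool.Agent.Work.MP_3035da_co.K
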