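import Pool.Agent.Work.MP_3035da_co.T.Defs
import Pool.Agent.Work.MP_3035da_co.K.Link

/-!
Module T.EAR: the two elementary operations in a face.

add_vertex: the pair `s(a,b)` is in the face `i`, `w` is isolated in `G`, `w ≠ a, b`.  The new graph
`addV G a b w` has the face system `cutFace f i (tri a b w)`.
 mem: `tri a b w` is a cycle of the new graph (`G.Adj a b` by `FaceSys.edge`).
 two: the pair `s(a,b)`: it was in `i` and one more face `j`; now it is in `tri` and `j`, not in `f i + tri`.
 The pairs `s(a,w)`, `s(b,w)`: in no old face (`w` is isolated), so in `tri` and in `f i + tri`.  All others: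
 unchanged.
 span: `z` a cycle of the new graph; `z s(a,w) = z s(b,w)` (boundary at `w`); if it is 0 then `z ∈ cyc G`,
 otherwise `z + tri a b w ∈ cyc G`.  An element of `cyc G` is a sum of `f j`, `j ∈ R`, and by
 `FaceSys.compl` we may take `i ∉ R`; so it is a sum of new faces.

add_vertex_conn: `TwoConn` is preserved: `U` of the new graph is `U G` and `w`.  Given a vertex `q` to be
avoided and `p, p' ≠ q`: vertices of `U G` are joined as before (`av G {q} ≤ av (addV ..) {q}`); `w` is
adjacent to `a` and `b`, one of them is `≠ q`.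

add_edge: the pairs `s(a,b)` and `s(b,c)` are in the face `i`, `a ≠ c`, `a c` not an edge.  The new graph
`addE G a c` has the face system `cutFace f i (tri a b c)`.
 two: `s(a,b)`: was in `i` and `j`, now in `tri` and `j`; the same for `s(b,c)`; `s(a,c)`: in no old face,
 now in `tri` and `f i + tri`.
 span: if `z s(a,c) ≠ 0` then `z + tri a b c ∈ cyc G`.

add_edge_conn: `U` does not change (`a, c ∈ U G`), and `av G {q} ≤ av (addE G a c) {q}`.
-/

set_option autoImplicit false

namespace Pool.Agent.Work.MP_3035da_co.K

open Finset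

private theorem ear_tri_ne {V : Type} {a b c : V} {e : Sym2 V} (h : tri a b c e ≠ 0) :
    e = s(a, b) ∨ e = s(b, c) ∨ e = s(a, c) := by
  by_contra hcon
  push Not at hcon
  obtain ⟨h1, h2, h3⟩ := hcon
  apply h
  simp only [tri, Pi.add_apply, sing_ne h1, sing_ne h2, sing_ne h3, add_zero]

private theorem ear_tri_ac {V : Type} {a b c : V} (hab : a ≠ b) (hbc : b ≠ c) :
    tri a b c s(a, c) = 1 := by
  have h1 : s(a, c) ≠ s(a, b) := by
    intro h
    rcases Sym2.eq_iff.1 h with h | h
    · exact hbc h.2.symm
    · exact hab h.1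
  have h2 : s(a, c) ≠ s(b, c) := by
    intro h
    rcases Sym2.eq_iff.1 h with h | h
    · exact hab h.1
    · exact hbc h.2.symm
  simp only [tri, Pi.add_apply, sing_ne h1, sing_ne h2, sing_self, zero_add]

private theorem ear_tri_bc {V : Type} {a b c : V} (hab : a ≠ b) (hac : a ≠ c) :
    tri a b c s(b, c) = 1 := by
  have h1 : s(b, c) ≠ s(a, b) := by
    intro h
    rcases Sym2.eq_iff.1 h with h | h
    · exact hab h.1.symm
    · exact hac h.2.symm
  have h2 : s(b, c) ≠ s(a, c) := by
    intro h
    rcases Sym2.eq_iff.1 h with h | h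
    · exact hab h.1.symm
    · exact hac h.2.symm
  simp only [tri, Pi.add_apply, sing_ne h1, sing_ne h2, sing_self, zero_add, add_zero]

private theorem ear_tri_mem {V : Type} [Fintype V] {G : SimpleGraph V} {a b c : V}
    (hab : G.Adj a b) (hbc : G.Adj b c) (hac : G.Adj a c) : tri a b c ∈ cyc G := by
  refine ⟨fun e he => ?_, fun v => ?_⟩
  · rcases ear_tri_ne he with rfl | rfl | rfl
    · exact hab
    · exact hbc
    · exact hac
  · classical
    rw [tri, bd_add, bd_add, bd_sing hab.ne, bd_sing hbc.ne, bd_sing hac.ne]
    have h2 : ∀ x : ZMod 2, x + x = 0 := fun x => CharTwo.add_self_eq_zero x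
    have h3 : ∀ x y z : ZMod 2, x + y + (y + z) + (x + z) = 0 := by decide
    convert h3 (if v = a then 1 else 0) (if v = b then 1 else 0) (if v = c then 1 else 0)

section
variable {V ι : Type} [Fintype V] [Fintype ι] {G : SimpleGraph V} {f : ι → Chain V}

/-- cutting a face by a chain `t` -/
private theorem ear_cut {G' : SimpleGraph V} (hf : FaceSys G f) (hle : G ≤ G') {i : ι}
    {t : Chain V} (ht : t ∈ cyc G') (hte : ∀ e, t e ≠ 0 → f i e = 1 ∨ ∀ j, f j e = 0)
    (hsp : ∀ z ∈ cyc G', z ∈ cyc G ∨ z + t ∈ cyc G) : FaceSys G' (cutFace f i t) := by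
  classical
  have hnone : cutFace f i t none = t := rfl
  have hi : cutFace f i t (some i) = f i + t := by
    simp [cutFace]
  have hj : ∀ j, j ≠ i → cutFace f i t (some j) = f j := by
    intro j hj
    simp [cutFace, hj]
  have hone : (1 : ZMod 2) ≠ 0 := by decide
  refine ⟨?_, ?_, ?_⟩
  · rintro (_ | j)
    · exact ht
    · by_cases h : j = i
      · subst h
        rw [hi]
        exact (cyc G').add_mem (cyc_mono hle (hf.mem _)) ht
      · rw [hj j h]
        exact cyc_mono hle (hf.mem _)
  · intro e
    rcases zo (t e) with h0 | h1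
    · have hsome : ∀ j, cutFace f i t (some j) e = f j e := by
        intro j
        by_cases h : j = i
        · subst h
          rw [hi, Pi.add_apply, h0, add_zero]
        · rw [hj j h]
      rcases hf.two e with h | h
      · left
        rintro (_ | j)
        · rw [hnone]; exact h0
        · rw [hsome, h j]
      · right
        obtain ⟨a, b, hab, hs⟩ := card_eq_two.mp h
        refine card_eq_two.mpr ⟨some a, some b, fun h => hab (Option.some.inj h), ?_⟩
        ext o
        rcases o with _ | j
        · simp [hnone, h0]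
        · have := Finset.ext_iff.mp hs j
          simp only [mem_filter, mem_univ, true_and, mem_insert, mem_singleton] at this
          simp only [mem_filter, mem_univ, true_and, mem_insert, mem_singleton, hsome,
            Option.some.injEq]
          exact this
    · right
      rcases hte e (by rw [h1]; exact hone) with h | h
      · obtain ⟨j, hji, hj1, hk⟩ := hf.pair h
        refine card_eq_two.mpr ⟨none, some j, by simp, ?_⟩
        ext o
        rcases o with _ | k
        · simp [hnone, h1]
        · simp only [mem_filter, mem_univ, true_and, mem_insert, mem_singleton,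
            Option.some.injEq, reduceCtorEq, false_or]
          by_cases hki : k = i
          · subst hki
            rw [hi, Pi.add_apply, h, h1]
            constructor
            · intro hc
              exact absurd hc (by decide)
            · intro hc
              exact absurd hc.symm hji
          · rw [hj k hki]
            constructor
            · intro hc
              exact (hk k hc).resolve_left hki
            · rintro rfl
              exact hj1
      · refine card_eq_two.mpr ⟨none, some i, by simp, ?_⟩
        ext o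
        rcases o with _ | k
        · simp [hnone, h1]
        · simp only [mem_filter, mem_univ, true_and, mem_insert, mem_singleton,
            Option.some.injEq, reduceCtorEq, false_or]
          by_cases hki : k = i
          · subst hki
            rw [hi, Pi.add_apply, h k, h1]
            simp
          · rw [hj k hki, h k]
            constructor
            · intro hc
              exact absurd hc.symm hone
            · intro hc
              exact absurd hc hki
  · have key : ∀ y ∈ cyc G, ∃ R : Finset ι, i ∉ R ∧ y = ∑ j ∈ R, f j := by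
      intro y hy
      obtain ⟨R, hR⟩ := hf.span y hy
      by_cases h : i ∈ R
      · exact ⟨Rᶜ, by simpa using h, by rw [hR, hf.compl]⟩
      · exact ⟨R, h, hR⟩
    have hsum : ∀ R : Finset ι, i ∉ R →
        ∑ o ∈ R.map Function.Embedding.some, cutFace f i t o = ∑ j ∈ R, f j := by
      intro R hR
      rw [sum_map]
      refine sum_congr rfl fun j hjR => ?_
      exact hj j (fun h => hR (h ▸ hjR))
    intro z hz
    rcases hsp z hz with h | h
    · obtain ⟨R, hR, hy⟩ := key z h
      exact ⟨R.map Function.Embedding.some, by rw [hsum R hR, hy]⟩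
    · obtain ⟨R, hR, hy⟩ := key _ h
      refine ⟨insert none (R.map Function.Embedding.some), ?_⟩
      rw [sum_insert (by simp), hsum R hR, ← hy, hnone]
      have := chain_add_self t
      calc z = z + (t + t) := by rw [this, add_zero]
        _ = t + (z + t) := by abel

private theorem ear_supp {S : Set (Sym2 V)} {y : Chain V}
    (hy : y ∈ cyc (G ⊔ SimpleGraph.fromEdgeSet S)) (h : ∀ e ∈ S, y e = 0) : y ∈ cyc G := by
  refine cyc_of_supp hy fun e he => ?_
  have h1 := hy.1 e he
  rw [SimpleGraph.edgeSet_sup, SimpleGraph.edgeSet_fromEdgeSet] at h1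
  rcases h1 with h1 | h1
  · exact h1
  · exact absurd (h e h1.1) he

theorem add_vertex (hf : FaceSys G f) {i : ι} {a b w : V} (hi : f i s(a, b) = 1) (hw : w ∉ U G) :
    FaceSys (addV G a b w) (cutFace f i (tri a b w)) := by
  classical
  have hone : (1 : ZMod 2) ≠ 0 := by decide
  have hab : G.Adj a b := hf.edge (by rw [hi]; exact hone)
  have haw : a ≠ w := fun h => hw (h ▸ ⟨b, hab⟩)
  have hbw : b ≠ w := fun h => hw (h ▸ ⟨a, hab.symm⟩)
  have hle : G ≤ addV G a b w := le_sup_left
  have hAw : (addV G a b w).Adj a w := by
    refine Or.inr ?_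
    rw [SimpleGraph.fromEdgeSet_adj]
    exact ⟨Or.inl rfl, haw⟩
  have hBw : (addV G a b w).Adj b w := by
    refine Or.inr ?_
    rw [SimpleGraph.fromEdgeSet_adj]
    exact ⟨Or.inr rfl, hbw⟩
  have ht : tri a b w ∈ cyc (addV G a b w) := ear_tri_mem (hle hab) hBw hAw
  refine ear_cut hf hle ht ?_ ?_
  · intro e he
    rcases ear_tri_ne he with rfl | rfl | rfl
    · exact Or.inl hi
    · right
      intro j
      by_contra hj
      exact hw ⟨b, (hf.edge hj : G.Adj b w).symm⟩
    · right
      intro j
      by_contra hj
      exact hw ⟨a, (hf.edge hj : G.Adj a w).symm⟩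
  · intro z hz
    -- the boundary at w
    have hbd : z s(w, a) + z s(w, b) = 0 := by
      have h1 := hz.2 w
      unfold bd at h1
      have h2 : ∑ u : V, z s(w, u) = ∑ u ∈ ({a, b} : Finset V), z s(w, u) := by
        symm
        refine sum_subset (subset_univ _) ?_
        intro u _ hu
        by_contra hne
        have h3 : (addV G a b w).Adj w u := hz.1 _ hne
        rcases h3 with h3 | h3
        · exact hw ⟨u, h3⟩
        · rw [SimpleGraph.fromEdgeSet_adj] at h3
          apply hu
          rcases h3.1 with h4 | h4
          · rcases Sym2.eq_iff.1 h4 with h5 | h5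
            · exact absurd h5.1.symm haw
            · simp [h5.2]
          · rcases Sym2.eq_iff.1 h4 with h5 | h5
            · exact absurd h5.1.symm hbw
            · simp [h5.2]
      rw [h2, sum_pair hab.ne] at h1
      exact h1
    have hbd' : z s(a, w) + z s(b, w) = 0 := by
      rw [Sym2.eq_swap (a := a), Sym2.eq_swap (a := b)]
      exact hbd
    rcases zo (z s(a, w)) with h0 | h1
    · left
      refine ear_supp hz ?_
      rintro e (rfl | rfl)
      · exact h0
      · rw [h0, zero_add] at hbd'
        exact hbd'
    · right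
      refine ear_supp ((cyc _).add_mem hz ht) ?_
      have h2 : z s(b, w) = 1 := by
        rw [h1] at hbd'
        revert hbd'
        generalize z s(b, w) = x
        revert x
        decide
      rintro e (rfl | rfl)
      · rw [Pi.add_apply, h1, ear_tri_ac hab.ne hbw]
        decide
      · rw [Pi.add_apply, h2, ear_tri_bc hab.ne haw]
        decide

theorem add_vertex_conn (hG : TwoConn G) {a b w : V} (hab : G.Adj a b) (hw : w ∉ U G) :
    TwoConn (addV G a b w) := by
  classical
  have haw : a ≠ w := fun h => hw (h ▸ ⟨b, hab⟩)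
  have hbw : b ≠ w := fun h => hw (h ▸ ⟨a, hab.symm⟩)
  have hAw : (addV G a b w).Adj w a := by
    refine Or.inr ?_
    rw [SimpleGraph.fromEdgeSet_adj]
    exact ⟨Or.inl Sym2.eq_swap, haw.symm⟩
  have hBw : (addV G a b w).Adj w b := by
    refine Or.inr ?_
    rw [SimpleGraph.fromEdgeSet_adj]
    exact ⟨Or.inr Sym2.eq_swap, hbw.symm⟩
  have hmono : ∀ q : V, av G {q} ≤ av (addV G a b w) {q} := by
    intro q x y h
    exact ⟨Or.inl h.1, h.2.1, h.2.2⟩
  -- every vertex is joined to a vertex of the old graph
  have hto : ∀ q p : V, p ∈ U (addV G a b w) → p ≠ q →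
      ∃ p₁, p₁ ∈ U G ∧ p₁ ≠ q ∧ (av (addV G a b w) {q}).Reachable p p₁ := by
    intro q p hp hpq
    by_cases hpU : p ∈ U G
    · exact ⟨p, hpU, hpq, SimpleGraph.Reachable.refl _⟩
    · have hpw : p = w := by
        obtain ⟨u, hu⟩ := hp
        rcases hu with hu | hu
        · exact absurd ⟨u, hu⟩ hpU
        · rw [SimpleGraph.fromEdgeSet_adj] at hu
          rcases hu.1 with h4 | h4
          · rcases Sym2.eq_iff.1 h4 with h5 | h5
            · exact absurd (h5.1 ▸ ⟨b, hab⟩ : p ∈ U G) hpU
            · exact h5.1
          · rcases Sym2.eq_iff.1 h4 with h5 | h5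
            · exact absurd (h5.1 ▸ ⟨a, hab.symm⟩ : p ∈ U G) hpU
            · exact h5.1
      subst hpw
      by_cases haq : a = q
      · refine ⟨b, ⟨a, hab.symm⟩, fun h => hab.ne (haq.trans h.symm), ?_⟩
        refine SimpleGraph.Adj.reachable ⟨hBw, ?_, ?_⟩
        · simpa using hpq
        · intro h
          exact hab.ne (haq.trans (Set.mem_singleton_iff.mp h).symm)
      · refine ⟨a, ⟨b, hab⟩, haq, ?_⟩
        refine SimpleGraph.Adj.reachable ⟨hAw, ?_, ?_⟩
        · simpa using hpq
        · simpa using haq
  intro q p p' hp hp' hpq hpq'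
  obtain ⟨p₁, h1, h2, h3⟩ := hto q p hp hpq
  obtain ⟨p₂, h4, h5, h6⟩ := hto q p' hp' hpq'
  exact h3.trans (((hG q p₁ p₂ h1 h4 h2 h5).mono (hmono q)).trans h6.symm)

theorem add_edge (hf : FaceSys G f) {i : ι} {a b c : V} (h1 : f i s(a, b) = 1)
    (h2 : f i s(b, c) = 1) (hac : a ≠ c) (hn : ¬ G.Adj a c) :
    FaceSys (addE G a c) (cutFace f i (tri a b c)) := by
  classical
  have hone : (1 : ZMod 2) ≠ 0 := by decide
  have hab : G.Adj a b := hf.edge (by rw [h1]; exact hone)
  have hbc : G.Adj b c := hf.edge (by rw [h2]; exact hone)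
  have hle : G ≤ addE G a c := le_sup_left
  have hAc : (addE G a c).Adj a c := by
    refine Or.inr ?_
    rw [SimpleGraph.fromEdgeSet_adj]
    exact ⟨rfl, hac⟩
  have ht : tri a b c ∈ cyc (addE G a c) := ear_tri_mem (hle hab) (hle hbc) hAc
  refine ear_cut hf hle ht ?_ ?_
  · intro e he
    rcases ear_tri_ne he with rfl | rfl | rfl
    · exact Or.inl h1
    · exact Or.inl h2
    · right
      intro j
      by_contra hj
      exact hn (hf.edge hj)
  · intro z hz
    rcases zo (z s(a, c)) with h0 | h3
    · left
      refine ear_supp hz ?_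
      rintro e rfl
      exact h0
    · right
      refine ear_supp ((cyc _).add_mem hz ht) ?_
      rintro e rfl
      rw [Pi.add_apply, h3, ear_tri_ac hab.ne hbc.ne]
      decide

theorem add_edge_conn (hG : TwoConn G) {a c : V} (ha : a ∈ U G) (hc : c ∈ U G) :
    TwoConn (addE G a c) := by
  have hU : ∀ p, p ∈ U (addE G a c) → p ∈ U G := by
    rintro p ⟨u, hu⟩
    rcases hu with hu | hu
    · exact ⟨u, hu⟩
    · rw [SimpleGraph.fromEdgeSet_adj] at hu
      rcases Sym2.eq_iff.1 (Set.mem_singleton_iff.mp hu.1) with h5 | h5
      · rw [h5.1]; exact ha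
      · rw [h5.1]; exact hc
  intro q p p' hp hp' hpq hpq'
  refine (hG q p p' (hU p hp) (hU p' hp') hpq hpq').mono ?_
  intro x y h
  exact ⟨Or.inl h.1, h.2.1, h.2.2⟩

end

end Pool.Agent.Work.MP_3035da_co.K
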