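import Pool.Agent.Work.MP_3035da_co.T.Reach

/-!
Module T.ZIG: the zigzag triangulation of a polygon whose diagonals are all absent.

The current face is the polygon `d a, d (a+1), …, d b` closed by the pair `s(d a, d b)`
(`pol d a b = ∑ j from a to b-1, sing s(d j, d (j+1)) + sing s(d a, d b)`).  Induct (strongly) on `b - a`.
If `b = a + 2` the face is the triangle `tri (d a) (d (a+1)) (d b)`: take `G'' = G'`.
If `b ≥ a + 3` and `a + b = n - 1`: `reach_edge` at the corner `d (a+1), d a, d b`: the new graph is
`addE G' (d (a+1)) (d b)`, the new face `pol d a b + tri (d (a+1)) (d a) (d b) = pol d (a+1) b`; the sum of the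
indices is now `n`.  If `a + b = n`: corner `d a, d b, d (b-1)`: graph `addE G' (d a) (d (b-1))`, face
`pol d a (b-1)`, index sum `n - 1`.  The hypothesis `hno` (no edge of `G'` between `d j` and `d k` for
`a ≤ j`, `j + 2 ≤ k ≤ b`, except `j = a`, `k = b`) is kept: the new edge is the exceptional pair of the
new polygon.  The values of `pol d a b` at the two pairs of the corner are 1 (the pairs in `pol` are
different, by injectivity on `a..b`).
-/

set_option autoImplicit false

namespace Pool.Agent.Work.MP_3035da_co.K

open Finset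

/-- the polygon `d a, …, d b` -/
noncomputable def pol {V : Type} (d : ℕ → V) (a b : ℕ) : Chain V :=
  ∑ j ∈ Ico a b, sing s(d j, d (j + 1)) + sing s(d a, d b)

private theorem zig_apply {V : Type} (d : ℕ → V) (a b : ℕ) (e : Sym2 V) :
    pol d a b e = ∑ l ∈ Ico a b, sing s(d l, d (l + 1)) e + sing s(d a, d b) e := by
  unfold pol
  rw [Pi.add_apply, Finset.sum_apply]

private theorem zig_side {V : Type} {n : ℕ} {d : ℕ → V}
    (hd : ∀ j k, j < n → k < n → d j = d k → j = k) {a b j : ℕ} (h2 : a + 2 ≤ b) (hb : b < n)
    (haj : a ≤ j) (hjb : j < b) : pol d a b s(d j, d (j + 1)) = 1 := by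
  rw [zig_apply, Finset.sum_eq_single j]
  · rw [sing_self, sing_ne, add_zero]
    intro h
    rcases Sym2.eq_iff.1 h with ⟨h3, h4⟩ | ⟨h3, _⟩
    · have := hd _ _ (by omega) (by omega) h3
      have := hd _ _ (by omega) (by omega) h4
      omega
    · have := hd _ _ (by omega) (by omega) h3
      omega
  · intro l hl hlj
    rw [Finset.mem_Ico] at hl
    apply sing_ne
    intro h
    rcases Sym2.eq_iff.1 h with ⟨h3, _⟩ | ⟨h3, h4⟩
    · exact hlj (hd _ _ (by omega) (by omega) h3.symm)
    · have := hd _ _ (by omega) (by omega) h3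
      have := hd _ _ (by omega) (by omega) h4
      omega
  · intro h
    exact absurd (Finset.mem_Ico.2 ⟨haj, hjb⟩) h

private theorem zig_diag {V : Type} {n : ℕ} {d : ℕ → V}
    (hd : ∀ j k, j < n → k < n → d j = d k → j = k) {a b : ℕ} (h2 : a + 2 ≤ b) (hb : b < n) :
    pol d a b s(d a, d b) = 1 := by
  rw [zig_apply, sing_self, Finset.sum_eq_zero, zero_add]
  intro l hl
  rw [Finset.mem_Ico] at hl
  apply sing_ne
  intro h
  rcases Sym2.eq_iff.1 h with ⟨h3, h4⟩ | ⟨h3, _⟩
  · have := hd _ _ (by omega) (by omega) h3
    have := hd _ _ (by omega) (by omega) h4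
    omega
  · have := hd _ _ (by omega) (by omega) h3
    omega

private theorem zig_low {V : Type} (d : ℕ → V) {a b : ℕ} (h2 : a + 3 ≤ b) :
    pol d a b + tri (d (a + 1)) (d a) (d b) = pol d (a + 1) b := by
  unfold pol tri
  rw [Finset.sum_eq_sum_Ico_succ_bot (by omega : a < b), Sym2.eq_swap (a := d (a + 1)) (b := d a)]
  have e1 := chain_add_self (sing s(d a, d (a + 1)) : Chain V)
  have e2 := chain_add_self (sing s(d a, d b) : Chain V)
  calc _ = (sing s(d a, d (a + 1)) + sing s(d a, d (a + 1))) + (sing s(d a, d b) + sing s(d a, d b)) +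
      (∑ k ∈ Ico (a + 1) b, sing s(d k, d (k + 1)) + sing s(d (a + 1), d b)) := by abel
    _ = _ := by rw [e1, e2, zero_add, zero_add]

private theorem zig_high {V : Type} (d : ℕ → V) {a b : ℕ} (h2 : a + 3 ≤ b + 1) :
    pol d a (b + 1) + tri (d a) (d (b + 1)) (d b) = pol d a b := by
  unfold pol tri
  rw [Finset.sum_Ico_succ_top (by omega : a ≤ b), Sym2.eq_swap (a := d (b + 1)) (b := d b)]
  have e1 := chain_add_self (sing s(d b, d (b + 1)) : Chain V)
  have e2 := chain_add_self (sing s(d a, d (b + 1)) : Chain V)
  calc _ = (sing s(d b, d (b + 1)) + sing s(d b, d (b + 1))) +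
      (sing s(d a, d (b + 1)) + sing s(d a, d (b + 1))) +
      (∑ k ∈ Ico a b, sing s(d k, d (k + 1)) + sing s(d a, d b)) := by abel
    _ = _ := by rw [e1, e2, zero_add, zero_add]

private theorem zig_addE {V : Type} (G : SimpleGraph V) (a c p q : V) :
    (addE G a c).Adj p q ↔ G.Adj p q ∨ (((p = a ∧ q = c) ∨ (p = c ∧ q = a)) ∧ p ≠ q) := by
  unfold addE
  rw [SimpleGraph.sup_adj, SimpleGraph.fromEdgeSet_adj]
  simp only [Set.mem_singleton_iff, Sym2.eq_iff]

theorem zig {V ι : Type} [Fintype V] [Fintype ι] [DecidableEq ι] {f : ι → Chain V} {i : ι}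
    {n : ℕ} {d : ℕ → V} (hd : ∀ j k, j < n → k < n → d j = d k → j = k) :
    ∀ (m a b : ℕ) (G' : SimpleGraph V), b - a = m → a + 2 ≤ b → b < n →
      (a + b = n - 1 ∨ a + b = n) → Reach f i G' (pol d a b) →
      (∀ j k, a ≤ j → j + 2 ≤ k → k ≤ b → ¬ (j = a ∧ k = b) → ¬ G'.Adj (d j) (d k)) →
      ∃ (G'' : SimpleGraph V) (F : Chain V), Reach f i G'' F ∧ IsTri F ∧ G' ≤ G'' ∧
        ∀ p q, G''.Adj p q → G'.Adj p q ∨ ∃ j k, j < n ∧ k < n ∧ (j + k = n - 1 ∨ j + k = n) ∧
          p = d j ∧ q = d k := by
  intro m
  induction m with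
  | zero =>
    intro a b G' h1 h2
    omega
  | succ m ih =>
    intro a b G' h1 h2 hb hab hR hno
    rcases Nat.lt_or_ge b (a + 3) with h3 | h3
    · have h4 : b = a + 2 := by omega
      subst h4
      refine ⟨G', pol d a (a + 2), hR, ?_, le_rfl, fun p q h => Or.inl h⟩
      refine ⟨d a, d (a + 1), d (a + 2), ?_, ?_, ?_, ?_⟩
      · intro h
        have := hd _ _ (by omega) (by omega) h
        omega
      · intro h
        have := hd _ _ (by omega) (by omega) h
        omega
      · intro h
        have := hd _ _ (by omega) (by omega) h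
        omega
      · unfold pol tri
        rw [Finset.sum_Ico_succ_top (by omega : a ≤ a + 1), Finset.sum_Ico_succ_top le_rfl,
          Finset.Ico_self, Finset.sum_empty, zero_add]
    · rcases hab with hab | hab
      · have k1 : pol d a b s(d (a + 1), d a) = 1 := by
          rw [Sym2.eq_swap]
          exact zig_side hd h2 hb le_rfl (by omega)
        have k2 : pol d a b s(d a, d b) = 1 := zig_diag hd h2 hb
        have k3 : d (a + 1) ≠ d b := fun h => by
          have := hd _ _ (by omega) (by omega) h
          omega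
        have k4 : ¬ G'.Adj (d (a + 1)) (d b) :=
          hno (a + 1) b (by omega) (by omega) le_rfl (by omega)
        have k5 := reach_edge hR k1 k2 k3 k4
        rw [zig_low d h3] at k5
        obtain ⟨G'', F, e1, e2, e3, e4⟩ := ih (a + 1) b _ (by omega) (by omega) hb
          (Or.inr (by omega)) k5 (by
            intro j k hj hk hkb hjk h
            rw [zig_addE] at h
            rcases h with h | ⟨⟨h, h'⟩ | ⟨h, h'⟩, _⟩
            · exact hno j k (by omega) hk hkb (by omega) h
            · have := hd _ _ (by omega) (by omega) h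
              have := hd _ _ (by omega) (by omega) h'
              omega
            · have := hd _ _ (by omega) (by omega) h
              have := hd _ _ (by omega) (by omega) h'
              omega)
        refine ⟨G'', F, e1, e2, le_trans le_sup_left e3, ?_⟩
        intro p q hpq
        rcases e4 p q hpq with h | h
        · rw [zig_addE] at h
          rcases h with h | ⟨⟨h, h'⟩ | ⟨h, h'⟩, _⟩
          · exact Or.inl h
          · exact Or.inr ⟨a + 1, b, by omega, hb, Or.inr (by omega), h, h'⟩
          · exact Or.inr ⟨b, a + 1, hb, by omega, Or.inr (by omega), h, h'⟩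
        · exact Or.inr h
      · obtain ⟨b, rfl⟩ : ∃ b', b = b' + 1 := ⟨b - 1, by omega⟩
        have k1 : pol d a (b + 1) s(d a, d (b + 1)) = 1 := zig_diag hd h2 hb
        have k2 : pol d a (b + 1) s(d (b + 1), d b) = 1 := by
          rw [Sym2.eq_swap]
          exact zig_side hd h2 hb (by omega) (by omega)
        have k3 : d a ≠ d b := fun h => by
          have := hd _ _ (by omega) (by omega) h
          omega
        have k4 : ¬ G'.Adj (d a) (d b) :=
          hno a b le_rfl (by omega) (by omega) (by omega)
        have k5 := reach_edge hR k1 k2 k3 k4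
        rw [zig_high d (by omega)] at k5
        obtain ⟨G'', F, e1, e2, e3, e4⟩ := ih a b _ (by omega) (by omega) (by omega)
          (Or.inl (by omega)) k5 (by
            intro j k hj hk hkb hjk h
            rw [zig_addE] at h
            rcases h with h | ⟨⟨h, h'⟩ | ⟨h, h'⟩, _⟩
            · exact hno j k (by omega) hk (by omega) (by omega) h
            · have := hd _ _ (by omega) (by omega) h
              have := hd _ _ (by omega) (by omega) h'
              omega
            · have := hd _ _ (by omega) (by omega) h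
              have := hd _ _ (by omega) (by omega) h'
              omega)
        refine ⟨G'', F, e1, e2, le_trans le_sup_left e3, ?_⟩
        intro p q hpq
        rcases e4 p q hpq with h | h
        · rw [zig_addE] at h
          rcases h with h | ⟨⟨h, h'⟩ | ⟨h, h'⟩, _⟩
          · exact Or.inl h
          · exact Or.inr ⟨a, b, by omega, by omega, Or.inl (by omega), h, h'⟩
          · exact Or.inr ⟨b, a, by omega, by omega, Or.inl (by omega), h, h'⟩
        · exact Or.inr h

end Pool.Agent.Work.MP_3035da_co.K
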