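import Pool.Agent.Work.MP_3035da_co.T.Ring
import Pool.Agent.Work.MP_3035da_co.T.Zig

/-!
Module T.FILL: one face is filled.

`ring_reach`, then: if `n = 3` the face is already a triangle (it is `pol d 0 2`, use `zig` with `a = 0`,
`b = 2`, `a + b = n - 1`).  In general the face `∑ j < n, sing s(d j, d (j+1))` is `pol d 0 (n-1)`
(`d n = d 0`), and `zig` applies with `a = 0`, `b = n - 1`, `m = n - 1`.  `hno`: `d j` and `d k`, `j + 2 ≤ k ≤ n - 1`, not
(`0`, `n-1`), are not adjacent in `ringG (annG G c d n) d n`: not in `G` (isolated), not in the annulus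
(one end is a `c j`, which is in `U G`), not a ring edge (`ring_adj`; `d (j'+1)` for `j' = n - 1` is `d 0`).
Finish with `reach_end`.  The description of the edges: `ring_adj`, `ann_adj`, `zig`.
-/

set_option autoImplicit false

namespace Pool.Agent.Work.MP_3035da_co.K

open Finset

/-- the new edges in a filled face; `a` is an inner vertex -/
def FillAdj {V : Type} (n : ℕ) (c d : ℕ → V) (a b : V) : Prop :=
  ∃ j < n, a = d j ∧ (b = c j ∨ b = c (j + 1) ∨ b = d (j + 1) ∨ b = d (j + n - 1) ∨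
    ∃ k < n, (j + k = n - 1 ∨ j + k = n) ∧ b = d k)

theorem fill_face {V ι : Type} [Fintype V] [Fintype ι] [DecidableEq ι] {G : SimpleGraph V}
    {f : ι → Chain V} {i : ι} (hf : FaceSys G f) (hG : TwoConn G) {n : ℕ} {c d : ℕ → V}
    (hc : Enum (f i) n c) (hd : ∀ j k, j < n → k < n → d j = d k → j = k)
    (hper : ∀ j, d (j + n) = d j) (hdU : ∀ j, d j ∉ U G) :
    ∃ (G' : SimpleGraph V) (m : ℕ) (g : {j // j ≠ i} ⊕ Fin m → Chain V),
      FaceSys G' g ∧ TwoConn G' ∧ (∀ j, g (Sum.inl j) = f j.1) ∧ (∀ k, IsTri (g (Sum.inr k))) ∧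
      G ≤ G' ∧ ∀ a b, G'.Adj a b → G.Adj a b ∨ FillAdj n c d a b ∨ FillAdj n c d b a := by
  have hn := hc.hn
  have hcU : ∀ l, l < n → c l ∈ U G ∧ c (l + 1) ∈ U G := by
    intro l hl
    have h1 : f i s(c l, c (l + 1)) ≠ 0 := (hc.iff _).2 ⟨l, hl, rfl⟩
    have h2 : G.Adj (c l) (c (l + 1)) := by simpa using hf.edge h1
    exact ⟨⟨_, h2⟩, ⟨_, h2.symm⟩⟩
  have hd0 : d n = d 0 := by simpa using hper 0
  have hR := ring_reach hf hG hc hd hper hdU
  have hpol : (∑ j ∈ range n, sing s(d j, d (j + 1))) = pol d 0 (n - 1) := by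
    obtain ⟨k, rfl⟩ : ∃ k, n = k + 1 := ⟨n - 1, by omega⟩
    rw [sum_range_succ, hd0]
    unfold pol
    rw [Nat.add_sub_cancel, Finset.range_eq_Ico, Sym2.eq_swap (a := d 0)]
  rw [hpol] at hR
  have hno : ∀ j k, 0 ≤ j → j + 2 ≤ k → k ≤ n - 1 → ¬ (j = 0 ∧ k = n - 1) →
      ¬ (ringG (annG G c d n) d n).Adj (d j) (d k) := by
    intro j k _ hjk hk hne hadj
    rw [ring_adj, ann_adj] at hadj
    rcases hadj with (h | ⟨-, l, hl, h⟩) | ⟨-, l, hl, h⟩
    · exact hdU j ⟨_, h⟩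
    · rcases h with h | h | h | h
      · exact hdU j (h.1 ▸ (hcU l hl).1)
      · exact hdU k (h.1 ▸ (hcU l hl).1)
      · exact hdU j (h.1 ▸ (hcU l hl).2)
      · exact hdU k (h.1 ▸ (hcU l hl).2)
    · rcases h with ⟨h1, h2⟩ | ⟨h1, h2⟩
      · have e1 := hd j l (by omega) hl h1
        by_cases h3 : l + 1 < n
        · have e2 := hd k (l + 1) (by omega) h3 h2
          omega
        · have e3 : l + 1 = n := by omega
          rw [e3, hd0] at h2
          have e2 := hd k 0 (by omega) (by omega) h2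
          omega
      · have e1 := hd k l (by omega) hl h1
        by_cases h3 : l + 1 < n
        · have e2 := hd j (l + 1) (by omega) h3 h2
          omega
        · have e3 : l + 1 = n := by omega
          rw [e3, hd0] at h2
          have e2 := hd j 0 (by omega) (by omega) h2
          exact hne ⟨e2, by omega⟩
  obtain ⟨G'', F, hR2, hF, hle, hadj⟩ := zig hd (n - 1) 0 (n - 1) _ (by omega) (by omega) (by omega)
    (Or.inl (by omega)) hR hno
  obtain ⟨m, g, hfs, hc2, h1, h2⟩ := reach_end hR2 hF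
  refine ⟨G'', m, g, hfs, hc2, h1, h2, ?_, ?_⟩
  · refine le_trans ?_ hle
    intro a b hab
    rw [ring_adj, ann_adj]
    exact Or.inl (Or.inl hab)
  · intro a b hab
    rcases hadj a b hab with h | ⟨j, k, hj, hk, hjk, ha, hb⟩
    · rw [ring_adj, ann_adj] at h
      rcases h with (h | ⟨-, l, hl, h⟩) | ⟨-, l, hl, h⟩
      · exact Or.inl h
      · rcases h with h | h | h | h
        · exact Or.inr (Or.inr ⟨l, hl, h.2, Or.inl h.1⟩)
        · exact Or.inr (Or.inl ⟨l, hl, h.2, Or.inl h.1⟩)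
        · exact Or.inr (Or.inr ⟨l, hl, h.2, Or.inr (Or.inl h.1)⟩)
        · exact Or.inr (Or.inl ⟨l, hl, h.2, Or.inr (Or.inl h.1)⟩)
      · rcases h with h | h
        · exact Or.inr (Or.inl ⟨l, hl, h.1, Or.inr (Or.inr (Or.inl h.2))⟩)
        · exact Or.inr (Or.inr ⟨l, hl, h.1, Or.inr (Or.inr (Or.inl h.2))⟩)
    · exact Or.inr (Or.inl ⟨j, hj, ha, Or.inr (Or.inr (Or.inr (Or.inr ⟨k, hk, hjk, hb⟩)))⟩)

end Pool.Agent.Work.MP_3035da_co.K
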