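import Pool.Agent.Work.MP_3035da_co.T.Ear

/-!
Module T.REACH: `Reach f i G' F`: after some operations in the face `i` the graph is `G'`, the current face
is `F` (index `none`), the faces `f j`, `j ≠ i`, are unchanged, and all others are triangles.

reach_start: `m = 0`; transport the face system along `ι ≃ Option ({j // j ≠ i} ⊕ Fin 0)`.
reach_vert, reach_edge: `add_vertex`, `add_edge` with the face `none`; the new index type
`Option (Option (… ⊕ Fin m))` is transported to `Option (… ⊕ Fin (m+1))` (the new triangle gets the last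
index of `Fin (m+1)`).
reach_end: if `F` is a triangle, it gets an index in `Fin (m+1)`.

A helper lemma: a face system stays one if it is composed with a bijection of the index types
(as in `FaceSys.plane`).
-/

set_option autoImplicit false

namespace Pool.Agent.Work.MP_3035da_co.K

open Finset

/-- see the header -/
def Reach {V ι : Type} [Fintype V] [Fintype ι] [DecidableEq ι] (f : ι → Chain V) (i : ι)
    (G' : SimpleGraph V) (F : Chain V) : Prop :=
  ∃ (m : ℕ) (g : Option ({j // j ≠ i} ⊕ Fin m) → Chain V), FaceSys G' g ∧ TwoConn G' ∧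
    g none = F ∧ (∀ j, g (some (Sum.inl j)) = f j.1) ∧ ∀ k, IsTri (g (some (Sum.inr k)))

private theorem fs_equiv {V ι κ : Type} [Fintype V] [Fintype ι] [Fintype κ] {G : SimpleGraph V}
    {f : ι → Chain V} (hf : FaceSys G f) (e : κ ≃ ι) : FaceSys G (fun k => f (e k)) := by
  classical
  refine ⟨fun k => hf.mem _, fun s => ?_, fun z hz => ?_⟩
  · rcases hf.two s with h | h
    · exact Or.inl fun k => h _
    · refine Or.inr (Eq.trans ?_ h)
      refine card_bij' (fun k _ => e k) (fun i _ => e.symm i) ?_ ?_ ?_ ?_ <;> simp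
  · obtain ⟨S, hS⟩ := hf.span z hz
    refine ⟨S.map e.symm.toEmbedding, ?_⟩
    rw [hS, sum_map]
    simp

private def optEq (A B : Type) : Option (A ⊕ Option B) ≃ Option (Option (A ⊕ B)) where
  toFun
    | none => some none
    | some (Sum.inl a) => some (some (Sum.inl a))
    | some (Sum.inr none) => none
    | some (Sum.inr (some k)) => some (some (Sum.inr k))
  invFun
    | none => some (Sum.inr none)
    | some none => none
    | some (some (Sum.inl a)) => some (Sum.inl a)
    | some (some (Sum.inr k)) => some (Sum.inr (some k))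
  left_inv := by rintro (_ | (a | (_ | k))) <;> rfl
  right_inv := by rintro (_ | (_ | (a | k))) <;> rfl

private def optEq2 (A B : Type) : A ⊕ Option B ≃ Option (A ⊕ B) where
  toFun
    | Sum.inl a => some (Sum.inl a)
    | Sum.inr none => none
    | Sum.inr (some k) => some (Sum.inr k)
  invFun
    | none => Sum.inr none
    | some (Sum.inl a) => Sum.inl a
    | some (Sum.inr k) => Sum.inr (some k)
  left_inv := by rintro (a | (_ | k)) <;> rfl
  right_inv := by rintro (_ | (a | k)) <;> rfl

section
variable {V ι : Type} [Fintype V] [Fintype ι] [DecidableEq ι] {G G' : SimpleGraph V}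
  {f : ι → Chain V} {i : ι} {F : Chain V}

theorem reach_start (hf : FaceSys G f) (hG : TwoConn G) (i : ι) : Reach f i G (f i) := by
  let e : Option ({j // j ≠ i} ⊕ Fin 0) ≃ ι :=
    (Equiv.optionCongr (Equiv.sumEmpty _ _)).trans (Equiv.optionSubtypeNe i)
  refine ⟨0, fun o => f (e o), fs_equiv hf e, hG, ?_, fun j => ?_, fun k => k.elim0⟩
  · simp [e]
  · simp [e]

private theorem reach_step {t : Chain V} {G'' : SimpleGraph V} {m : ℕ}
    {g : Option ({j // j ≠ i} ⊕ Fin m) → Chain V}
    (h1 : ∀ j, g (some (Sum.inl j)) = f j.1) (h2 : ∀ k, IsTri (g (some (Sum.inr k))))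
    (hfs : FaceSys G'' (cutFace g none t)) (hc : TwoConn G'') (ht : IsTri t) :
    Reach f i G'' (g none + t) := by
  classical
  let e : Option ({j // j ≠ i} ⊕ Fin (m + 1)) ≃ Option (Option ({j // j ≠ i} ⊕ Fin m)) :=
    (Equiv.optionCongr (Equiv.sumCongr (Equiv.refl _) finSuccEquivLast)).trans (optEq _ _)
  refine ⟨m + 1, fun o => cutFace g none t (e o), fs_equiv hfs e, hc, ?_, fun j => ?_, fun k => ?_⟩
  · show cutFace g none t (some none) = _
    simp [cutFace]
  · show cutFace g none t (some (some (Sum.inl j))) = _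
    simp [cutFace, h1]
  · show IsTri (cutFace g none t (optEq _ _ (some (Sum.inr (finSuccEquivLast k)))))
    rcases finSuccEquivLast k with _ | k'
    · show IsTri (cutFace g none t none)
      exact ht
    · show IsTri (cutFace g none t (some (some (Sum.inr k'))))
      simpa [cutFace] using h2 k'

private theorem adj_of {ι' : Type} [Fintype ι'] {g : ι' → Chain V} (hfs : FaceSys G' g) {o : ι'}
    {a b : V} (h : g o s(a, b) = 1) : G'.Adj a b := by
  have := hfs.edge (i := o) (e := s(a, b)) (by rw [h]; decide)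
  simpa using this

theorem reach_vert (h : Reach f i G' F) {a b w : V} (hab : F s(a, b) = 1) (hw : w ∉ U G') :
    Reach f i (addV G' a b w) (F + tri a b w) := by
  obtain ⟨m, g, hfs, hc, rfl, h1, h2⟩ := h
  have hadj := adj_of hfs hab
  have haU : a ∈ U G' := ⟨b, hadj⟩
  have hbU : b ∈ U G' := ⟨a, hadj.symm⟩
  exact reach_step h1 h2 (add_vertex hfs hab hw) (add_vertex_conn hc hadj hw)
    ⟨a, b, w, hadj.ne, fun e => hw (e ▸ hbU), fun e => hw (e ▸ haU), rfl⟩

theorem reach_edge (h : Reach f i G' F) {a b c : V} (hab : F s(a, b) = 1) (hbc : F s(b, c) = 1)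
    (hac : a ≠ c) (hn : ¬ G'.Adj a c) : Reach f i (addE G' a c) (F + tri a b c) := by
  obtain ⟨m, g, hfs, hc, rfl, h1, h2⟩ := h
  have hadj := adj_of hfs hab
  have hadj2 := adj_of hfs hbc
  exact reach_step h1 h2 (add_edge hfs hab hbc hac hn) (add_edge_conn hc ⟨b, hadj⟩ ⟨b, hadj2.symm⟩)
    ⟨a, b, c, hadj.ne, hadj2.ne, hac, rfl⟩

theorem reach_end (h : Reach f i G' F) (hF : IsTri F) :
    ∃ (m : ℕ) (g : {j // j ≠ i} ⊕ Fin m → Chain V), FaceSys G' g ∧ TwoConn G' ∧
      (∀ j, g (Sum.inl j) = f j.1) ∧ ∀ k, IsTri (g (Sum.inr k)) := by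
  obtain ⟨m, g, hfs, hc, rfl, h1, h2⟩ := h
  let e : {j // j ≠ i} ⊕ Fin (m + 1) ≃ Option ({j // j ≠ i} ⊕ Fin m) :=
    (Equiv.sumCongr (Equiv.refl _) finSuccEquivLast).trans (optEq2 _ _)
  refine ⟨m + 1, fun o => g (e o), fs_equiv hfs e, hc, fun j => h1 j, fun k => ?_⟩
  show IsTri (g (optEq2 _ _ (Sum.inr (finSuccEquivLast k))))
  rcases finSuccEquivLast k with _ | k'
  · exact hF
  · exact h2 k'

end

end Pool.Agent.Work.MP_3035da_co.K
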