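import Pool.Agent.Work.MP_3035da_co.T.Ann

/-!
Module T.RING: the inner ring.

`ringG H d k`: `H` with the edges `s(d j, d (j+1))`, `j < k`, defined recursively with `addE`
(here `d` is periodic with period `n`).

ring_reach: start from `ann_reach`; by induction on `k ≤ n` the current face is
`∑ j < n, (sing s(c j, d j) + sing s(c (j+1), d j)) + ∑ j < k, tri (d j) (c (j+1)) (d (j+1))`.
Step: `reach_edge` at `a = d k`, `b = c (k+1)`, `c = d (k+1)`.  The value at `s(d k, c (k+1))` is 1: the first
sum contributes 1 (`j = k`, second term; the pairs `s(c j, d j)`, `s(c (j+1), d j)`, `j < n`, are all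
different), and the triangle `tri (d j) (c (j+1)) (d (j+1))` with `j < k` contains the pair only if
`d k ∈ {d j, d (j+1)}` and `c (k+1) = c (j+1)`, no.  The value at `s(c (k+1), d (k+1))` is 1: the first sum
contributes 1 (`j = k+1`, or `j = 0` if `k + 1 = n`), the triangles contain it only if `c (j+1) = c (k+1)`, no.
`d k` and `d (k+1)` are different and not adjacent in `ringG (annG G c d n) d k`: not in `G`, not in the annulus
edges (one end of these is a `c`), not one of `s(d j, d (j+1))`, `j < k` (as `n ≥ 3`).
For `k = n` the face is `∑ j < n, sing s(d j, d (j+1))`: the annulus edges cancel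
(`∑ j < n, sing s(c (j+1), d (j+1)) = ∑ j < n, sing s(c j, d j)` by periodicity).
-/

set_option autoImplicit false

namespace Pool.Agent.Work.MP_3035da_co.K

open Finset

/-- the graph after `k` steps -/
def ringG {V : Type} (H : SimpleGraph V) (d : ℕ → V) : ℕ → SimpleGraph V
  | 0 => H
  | k + 1 => addE (ringG H d k) (d k) (d (k + 1))

private theorem ring_pm {V : Type} {n : ℕ} {d : ℕ → V} (hper : ∀ j, d (j + n) = d j) (j : ℕ) :
    d (j % n) = d j :=
  Function.Periodic.map_mod_nat hper j

private theorem ring_pinj {V : Type} {n : ℕ} {d : ℕ → V} (hn : 0 < n)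
    (hper : ∀ j, d (j + n) = d j) (hinj : ∀ j k, j < n → k < n → d j = d k → j = k)
    {j k : ℕ} (h : d j = d k) : j % n = k % n := by
  apply hinj _ _ (Nat.mod_lt _ hn) (Nat.mod_lt _ hn)
  rw [ring_pm hper, ring_pm hper, h]

private theorem ring_enum_adj {V ι : Type} [Fintype V] [Fintype ι] {G : SimpleGraph V}
    {f : ι → Chain V} {i : ι} (hf : FaceSys G f) {n : ℕ} {c : ℕ → V} (hc : Enum (f i) n c)
    (j : ℕ) : G.Adj (c j) (c (j + 1)) := by
  have hn := hc.hn
  have h1 : c (j + 1) = c (j % n + 1) := by
    rw [← ring_pm hc.per (j + 1), ← ring_pm hc.per (j % n + 1)]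
    congr 1
    simp
  rw [← ring_pm hc.per j, h1]
  have h2 : f i s(c (j % n), c (j % n + 1)) ≠ 0 :=
    (hc.iff _).2 ⟨j % n, Nat.mod_lt _ (by omega), rfl⟩
  have h3 := hf.edge h2
  rwa [SimpleGraph.mem_edgeSet] at h3

private theorem ring_enum_U {V ι : Type} [Fintype V] [Fintype ι] {G : SimpleGraph V}
    {f : ι → Chain V} {i : ι} (hf : FaceSys G f) {n : ℕ} {c : ℕ → V} (hc : Enum (f i) n c)
    (j : ℕ) : c j ∈ U G := ⟨_, ring_enum_adj hf hc j⟩

private theorem ring_succ_ne {n k : ℕ} (hn : 3 ≤ n) : k % n ≠ (k + 1) % n := by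
  intro h
  have h1 := Nat.mod_lt k (by omega : 0 < n)
  rcases Nat.lt_or_ge (k % n + 1) n with h2 | h2
  · have : (k + 1) % n = k % n + 1 := by
      rw [Nat.add_mod, Nat.mod_eq_of_lt (by omega : 1 < n), Nat.mod_eq_of_lt h2]
    omega
  · have : (k + 1) % n = 0 := by
      rw [Nat.add_mod, Nat.mod_eq_of_lt (by omega : 1 < n), (by omega : k % n + 1 = n),
        Nat.mod_self]
    omega

private theorem ring_succ_cancel {n j k : ℕ} (hn : 3 ≤ n) (hj : j < n) (hk : k < n)
    (h : (j + 1) % n = (k + 1) % n) : j = k := by
  rcases Nat.lt_or_ge (j + 1) n with h1 | h1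
  · rw [Nat.mod_eq_of_lt h1] at h
    rcases Nat.lt_or_ge (k + 1) n with h2 | h2
    · rw [Nat.mod_eq_of_lt h2] at h
      omega
    · rw [(by omega : k + 1 = n), Nat.mod_self] at h
      omega
  · rw [(by omega : j + 1 = n), Nat.mod_self] at h
    rcases Nat.lt_or_ge (k + 1) n with h2 | h2
    · rw [Nat.mod_eq_of_lt h2] at h
      omega
    · omega

theorem ring_adj {V : Type} {H : SimpleGraph V} {d : ℕ → V} (k : ℕ) (a b : V) :
    (ringG H d k).Adj a b ↔ H.Adj a b ∨ (a ≠ b ∧ ∃ j < k,
      (a = d j ∧ b = d (j + 1)) ∨ (b = d j ∧ a = d (j + 1))) := by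

  induction k with
  | zero => simp [ringG]
  | succ k ih =>
    show (ringG H d k ⊔ SimpleGraph.fromEdgeSet {s(d k, d (k + 1))}).Adj a b ↔ _
    rw [SimpleGraph.sup_adj, ih, SimpleGraph.fromEdgeSet_adj]
    simp only [Set.mem_singleton_iff, Sym2.eq_iff]
    constructor
    · rintro ((h | ⟨hab, j, hj, h⟩) | ⟨h, hab⟩)
      · exact Or.inl h
      · exact Or.inr ⟨hab, j, by omega, h⟩
      · refine Or.inr ⟨hab, k, by omega, ?_⟩
        rcases h with ⟨h1, h2⟩ | ⟨h1, h2⟩
        · exact Or.inl ⟨h1, h2⟩
        · exact Or.inr ⟨h2, h1⟩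
    · rintro (h | ⟨hab, j, hj, h⟩)
      · exact Or.inl (Or.inl h)
      · rcases Nat.lt_or_ge j k with h1 | h1
        · exact Or.inl (Or.inr ⟨hab, j, h1, h⟩)
        · have h2 : j = k := by omega
          subst h2
          refine Or.inr ⟨?_, hab⟩
          rcases h with ⟨h1, h2⟩ | ⟨h1, h2⟩
          · exact Or.inl ⟨h1, h2⟩
          · exact Or.inr ⟨h2, h1⟩

theorem ring_reach {V ι : Type} [Fintype V] [Fintype ι] [DecidableEq ι] {G : SimpleGraph V}
    {f : ι → Chain V} {i : ι} (hf : FaceSys G f) (hG : TwoConn G) {n : ℕ} {c d : ℕ → V}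
    (hc : Enum (f i) n c) (hd : ∀ j k, j < n → k < n → d j = d k → j = k)
    (hper : ∀ j, d (j + n) = d j) (hdU : ∀ j, d j ∉ U G) :
    Reach f i (ringG (annG G c d n) d n) (∑ j ∈ range n, sing s(d j, d (j + 1))) := by
  classical
  have hn := hc.hn
  have hn0 : 0 < n := by omega
  have hcd : ∀ j k, c j ≠ d k := fun j k h => hdU k (h ▸ ring_enum_U hf hc j)
  have hdm : ∀ j k, d j = d k → j % n = k % n := fun j k h => ring_pinj hn0 hper hd h
  have hcm : ∀ j k, c j = c k → j % n = k % n := fun j k h => ring_pinj hn0 hc.per hc.inj h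
  have key : ∀ k, k ≤ n → Reach f i (ringG (annG G c d n) d k)
      (∑ j ∈ range n, (sing s(c j, d j) + sing s(c (j + 1), d j)) +
        ∑ j ∈ range k, tri (d j) (c (j + 1)) (d (j + 1))) := by
    intro k
    induction k with
    | zero =>
      intro _
      rw [Finset.range_zero, Finset.sum_empty, add_zero]
      exact ann_reach hf hG hc hd hdU
    | succ k ih =>
      intro hk
      have hkn : k < n := by omega
      have h1 := ih (by omega)
      have h2 : (∑ j ∈ range n, (sing s(c j, d j) + sing s(c (j + 1), d j)) +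
          ∑ j ∈ range k, tri (d j) (c (j + 1)) (d (j + 1))) s(d k, c (k + 1)) = 1 := by
        rw [Pi.add_apply, Finset.sum_apply, Finset.sum_apply]
        have h4 : ∑ j ∈ range k, tri (d j) (c (j + 1)) (d (j + 1)) s(d k, c (k + 1)) = 0 := by
          refine Finset.sum_eq_zero fun j hj => ?_
          rw [Finset.mem_range] at hj
          unfold tri
          rw [Pi.add_apply, Pi.add_apply, sing_ne, sing_ne, sing_ne]
          · rfl
          · intro h
            rcases Sym2.eq_iff.1 h with ⟨_, h⟩ | ⟨_, h⟩
            · exact hcd _ _ h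
            · exact hcd _ _ h
          · intro h
            rcases Sym2.eq_iff.1 h with ⟨h, _⟩ | ⟨_, h⟩
            · exact hcd _ _ h.symm
            · have := ring_succ_cancel hn hkn (by omega) (hcm _ _ h)
              omega
          · intro h
            rcases Sym2.eq_iff.1 h with ⟨h, _⟩ | ⟨h, _⟩
            · have := hd _ _ (by omega) (by omega) h
              omega
            · exact hcd _ _ h.symm
        have h3 : ∑ j ∈ range n, (sing s(c j, d j) + sing s(c (j + 1), d j)) s(d k, c (k + 1)) =
            1 := by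
          rw [Finset.sum_eq_single k]
          · rw [Pi.add_apply, sing_ne, Sym2.eq_swap, sing_self, zero_add]
            intro h
            rcases Sym2.eq_iff.1 h with ⟨h, _⟩ | ⟨_, h⟩
            · exact hcd _ _ h.symm
            · exact ring_succ_ne hn (hcm _ _ h).symm
          · intro j hj hjk
            rw [Finset.mem_range] at hj
            rw [Pi.add_apply, sing_ne, sing_ne]
            · rfl
            · intro h
              rcases Sym2.eq_iff.1 h with ⟨h, _⟩ | ⟨h, _⟩
              · exact hcd _ _ h.symm
              · exact hjk (hd _ _ hj hkn h.symm)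
            · intro h
              rcases Sym2.eq_iff.1 h with ⟨h, _⟩ | ⟨h, _⟩
              · exact hcd _ _ h.symm
              · exact hjk (hd _ _ hj hkn h.symm)
          · intro h
            exact absurd (Finset.mem_range.2 hkn) h
        rw [h3, h4, add_zero]
      have h5 : (∑ j ∈ range n, (sing s(c j, d j) + sing s(c (j + 1), d j)) +
          ∑ j ∈ range k, tri (d j) (c (j + 1)) (d (j + 1))) s(c (k + 1), d (k + 1)) = 1 := by
        rw [Pi.add_apply, Finset.sum_apply, Finset.sum_apply]
        have h4 : ∑ j ∈ range k, tri (d j) (c (j + 1)) (d (j + 1)) s(c (k + 1), d (k + 1)) =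
            0 := by
          refine Finset.sum_eq_zero fun j hj => ?_
          rw [Finset.mem_range] at hj
          unfold tri
          rw [Pi.add_apply, Pi.add_apply, sing_ne, sing_ne, sing_ne]
          · rfl
          · intro h
            rcases Sym2.eq_iff.1 h with ⟨h, _⟩ | ⟨h, _⟩
            · exact hcd _ _ h
            · exact hcd _ _ h
          · intro h
            rcases Sym2.eq_iff.1 h with ⟨h, _⟩ | ⟨h, _⟩
            · have := ring_succ_cancel hn hkn (by omega) (hcm _ _ h)
              omega
            · exact hcd _ _ h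
          · intro h
            rcases Sym2.eq_iff.1 h with ⟨h, _⟩ | ⟨h, _⟩
            · exact hcd _ _ h
            · have := ring_succ_cancel hn hkn (by omega) (hcm _ _ h)
              omega
        have h3 : ∑ j ∈ range n, (sing s(c j, d j) + sing s(c (j + 1), d j))
            s(c (k + 1), d (k + 1)) = 1 := by
          rw [Finset.sum_eq_single ((k + 1) % n)]
          · rw [Pi.add_apply, ring_pm hc.per, ring_pm hper, sing_self, sing_ne, add_zero]
            intro h
            rcases Sym2.eq_iff.1 h with ⟨h, _⟩ | ⟨h, _⟩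
            · have h6 := hcm _ _ h
              refine ring_succ_ne (n := n) (k := (k + 1) % n) hn ?_
              rw [Nat.mod_mod]
              exact h6
            · exact hcd _ _ h
          · intro j hj hjk
            rw [Finset.mem_range] at hj
            rw [Pi.add_apply, sing_ne, sing_ne]
            · rfl
            · intro h
              rcases Sym2.eq_iff.1 h with ⟨h, h'⟩ | ⟨h, _⟩
              · have e1 := ring_succ_cancel hn hkn hj (hcm _ _ h)
                subst e1
                exact ring_succ_ne hn (hdm _ _ h').symm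
              · exact hcd _ _ h
            · intro h
              rcases Sym2.eq_iff.1 h with ⟨h, _⟩ | ⟨h, _⟩
              · have := hcm _ _ h
                rw [Nat.mod_eq_of_lt hj] at this
                exact hjk this.symm
              · exact hcd _ _ h
          · intro h
            exact absurd (Finset.mem_range.2 (Nat.mod_lt _ hn0)) h
        rw [h3, h4, add_zero]
      have h6 : d k ≠ d (k + 1) := fun h => ring_succ_ne hn (hdm _ _ h)
      have h7 : ¬ (ringG (annG G c d n) d k).Adj (d k) (d (k + 1)) := by
        rw [ring_adj, ann_adj]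
        rintro ((h | ⟨_, j, _, h⟩) | ⟨_, j, hj, h⟩)
        · exact hdU k ⟨_, h⟩
        · rcases h with ⟨h, _⟩ | ⟨h, _⟩ | ⟨h, _⟩ | ⟨h, _⟩
          · exact hcd _ _ h.symm
          · exact hcd _ _ h.symm
          · exact hcd _ _ h.symm
          · exact hcd _ _ h.symm
        · rcases h with ⟨h, _⟩ | ⟨h, h'⟩
          · have := hd _ _ hkn (by omega) h
            omega
          · have e1 := hdm _ _ h'
            have e2 := hdm _ _ h
            rw [Nat.mod_eq_of_lt hkn] at e1
            rw [Nat.mod_eq_of_lt (by omega : j < n)] at e2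
            rw [Nat.mod_eq_of_lt (by omega : j + 1 < n)] at e1
            rcases Nat.lt_or_ge (k + 1) n with h8 | h8
            · rw [Nat.mod_eq_of_lt h8] at e2
              omega
            · rw [(by omega : k + 1 = n), Nat.mod_self] at e2
              omega
      have h8 := reach_edge h1 h2 h5 h6 h7
      rw [Finset.sum_range_succ, ← add_assoc]
      exact h8
  have h := key n le_rfl
  have hF : ∑ j ∈ range n, (sing s(c j, d j) + sing s(c (j + 1), d j)) +
      ∑ j ∈ range n, tri (d j) (c (j + 1)) (d (j + 1)) =
      ∑ j ∈ range n, sing s(d j, d (j + 1)) := by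
    have e0 : ∑ j ∈ range n, sing s(c (j + 1), d (j + 1)) = ∑ j ∈ range n, sing s(c j, d j) := by
      have e1 := Finset.sum_range_succ' (fun j => (sing s(c j, d j) : Chain V)) n
      rw [Finset.sum_range_succ] at e1
      have e2 : (sing s(c n, d n) : Chain V) = sing s(c 0, d 0) := by
        have e3 := hc.per 0
        have e4 := hper 0
        rw [zero_add] at e3 e4
        rw [e3, e4]
      rw [e2] at e1
      exact (add_right_cancel e1).symm
    have e5 : ∑ j ∈ range n, tri (d j) (c (j + 1)) (d (j + 1)) =
        ∑ j ∈ range n, sing s(c (j + 1), d j) + ∑ j ∈ range n, sing s(c j, d j) +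
          ∑ j ∈ range n, sing s(d j, d (j + 1)) := by
      unfold tri
      rw [Finset.sum_add_distrib, Finset.sum_add_distrib, e0]
      congr 2
      exact Finset.sum_congr rfl fun j _ => by rw [Sym2.eq_swap]
    rw [e5, Finset.sum_add_distrib]
    have e6 := chain_add_self (∑ j ∈ range n, sing s(c (j + 1), d j) : Chain V)
    have e7 := chain_add_self (∑ j ∈ range n, sing s(c j, d j) : Chain V)
    calc _ = (∑ j ∈ range n, sing s(c (j + 1), d j) + ∑ j ∈ range n, sing s(c (j + 1), d j)) +
        (∑ j ∈ range n, sing s(c j, d j) + ∑ j ∈ range n, sing s(c j, d j)) +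
          ∑ j ∈ range n, sing s(d j, d (j + 1)) := by abel
      _ = _ := by rw [e6, e7, zero_add, zero_add]
  rw [hF] at h
  exact h

end Pool.Agent.Work.MP_3035da_co.K
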